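import Mathlib

set_option autoImplicit false

/-!
# The Cauchy-Pompeiu formula for compactly supported functions of one complex variable
-/

namespace Pool.Agent.H71.Top

open MeasureTheory Set Filter Topology
open scoped Real

/-- the Wirtinger derivative with respect to the conjugate variable, in one variable -/
noncomputable def dbar1 (v : ℂ → ℂ) (w : ℂ) : ℂ :=
  (1 / 2 : ℂ) * (fderiv ℝ v w 1 + Complex.I * fderiv ℝ v w Complex.I)

/-- the unit vector of angle `t` -/
noncomputable def uv (t : ℝ) : ℂ := (Real.cos t : ℂ) + (Real.sin t : ℂ) * Complex.I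

theorem uv_norm (t : ℝ) : ‖uv t‖ = 1 := by
  have : uv t = Complex.exp (t * Complex.I) := by
    rw [Complex.exp_mul_I, uv, Complex.ofReal_cos, Complex.ofReal_sin]
  rw [this, Complex.norm_exp_ofReal_mul_I]

theorem uv_ne (t : ℝ) : uv t ≠ 0 := by
  intro h
  have := uv_norm t
  rw [h, norm_zero] at this
  exact zero_ne_one this

theorem uv_continuous : Continuous uv := by
  unfold uv
  fun_prop

theorem fderiv_uv (v : ℂ → ℂ) (w : ℂ) (t : ℝ) :
    fderiv ℝ v w (uv t) = (Real.cos t : ℂ) * fderiv ℝ v w 1 +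
      (Real.sin t : ℂ) * fderiv ℝ v w Complex.I := by
  have h : uv t = (Real.cos t : ℝ) • (1 : ℂ) + (Real.sin t : ℝ) • Complex.I := by
    unfold uv
    simp
  rw [h, map_add, map_smul, map_smul]
  simp

theorem fderiv_I_uv (v : ℂ → ℂ) (w : ℂ) (t : ℝ) :
    fderiv ℝ v w (Complex.I * uv t) = -(Real.sin t : ℂ) * fderiv ℝ v w 1 +
      (Real.cos t : ℂ) * fderiv ℝ v w Complex.I := by
  have h : Complex.I * uv t = (-Real.sin t : ℝ) • (1 : ℂ) + (Real.cos t : ℝ) • Complex.I := by
    unfold uv
    simp only [Complex.real_smul, mul_one]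
    push_cast
    ring_nf
    rw [Complex.I_sq]
    ring
  rw [h, map_add, map_smul, map_smul]
  simp

/-- the polar form of `dbar v / w` -/
theorem polar_id (v : ℂ → ℂ) (r t : ℝ) (hr : 0 < r) :
    (r : ℝ) • (dbar1 v ((r : ℂ) * uv t) / ((r : ℂ) * uv t)) =
      (1 / 2 : ℂ) * (fderiv ℝ v ((r : ℂ) * uv t) (uv t) +
        Complex.I * fderiv ℝ v ((r : ℂ) * uv t) (Complex.I * uv t)) := by
  rw [fderiv_uv, fderiv_I_uv, dbar1]
  set A := fderiv ℝ v ((r : ℂ) * uv t) 1
  set B := fderiv ℝ v ((r : ℂ) * uv t) Complex.I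
  have hr' : (r : ℂ) ≠ 0 := by exact_mod_cast hr.ne'
  have hu := uv_ne t
  have h1 : uv t * ((Real.cos t : ℂ) - (Real.sin t : ℂ) * Complex.I) = 1 := by
    unfold uv
    have h2 : ((Real.cos t : ℂ)) ^ 2 + ((Real.sin t : ℂ)) ^ 2 = 1 := by
      rw [← Complex.ofReal_pow, ← Complex.ofReal_pow, ← Complex.ofReal_add,
        Real.cos_sq_add_sin_sq, Complex.ofReal_one]
    ring_nf
    rw [Complex.I_sq]
    linear_combination h2
  have h3 : (r : ℝ) • ((1 / 2 : ℂ) * (A + Complex.I * B) / ((r : ℂ) * uv t)) =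
      (1 / 2 : ℂ) * (A + Complex.I * B) * ((Real.cos t : ℂ) - (Real.sin t : ℂ) * Complex.I) := by
    rw [Complex.real_smul]
    field_simp
    linear_combination (-(A + Complex.I * B)) * h1
  rw [h3]
  ring_nf
  rw [Complex.I_sq]
  ring

theorem hasDerivAt_ray (v : ℂ → ℂ) (hv : ContDiff ℝ 1 v) (t r : ℝ) :
    HasDerivAt (fun r : ℝ => v ((r : ℂ) * uv t)) (fderiv ℝ v ((r : ℂ) * uv t) (uv t)) r := by
  have h1 : HasDerivAt (fun r : ℝ => (r : ℂ) * uv t) (uv t) r := by
    have := (Complex.ofRealCLM.hasDerivAt (x := r)).mul_const (uv t)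
    simpa using this
  have h2 := (hv.differentiable one_ne_zero ((r : ℂ) * uv t)).hasFDerivAt
  exact h2.comp_hasDerivAt r h1

theorem hasDerivAt_circ (v : ℂ → ℂ) (hv : ContDiff ℝ 1 v) (r t : ℝ) :
    HasDerivAt (fun t : ℝ => v ((r : ℂ) * uv t))
      ((r : ℝ) • fderiv ℝ v ((r : ℂ) * uv t) (Complex.I * uv t)) t := by
  have h0 : HasDerivAt uv (Complex.I * uv t) t := by
    unfold uv
    have h1 : HasDerivAt (fun t : ℝ => (Real.cos t : ℂ)) (-(Real.sin t : ℂ)) t := by
      have := (Real.hasDerivAt_cos t).ofReal_comp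
      simpa using this
    have h2 : HasDerivAt (fun t : ℝ => (Real.sin t : ℂ)) (Real.cos t : ℂ) t :=
      (Real.hasDerivAt_sin t).ofReal_comp
    have h3 := h1.add (h2.mul_const Complex.I)
    have h4 : Complex.I * ((Real.cos t : ℂ) + (Real.sin t : ℂ) * Complex.I) =
        -(Real.sin t : ℂ) + (Real.cos t : ℂ) * Complex.I := by
      ring_nf
      rw [Complex.I_sq]
      ring
    rw [h4]
    exact h3
  have h1 : HasDerivAt (fun t : ℝ => (r : ℂ) * uv t) ((r : ℝ) • (Complex.I * uv t)) t := by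
    have := h0.const_mul (r : ℂ)
    rwa [← Complex.real_smul] at this
  have h2 := (hv.differentiable one_ne_zero ((r : ℂ) * uv t)).hasFDerivAt
  have h3 := h2.comp_hasDerivAt t h1
  rwa [map_smul] at h3

/-- Cauchy-Pompeiu: `∫ dbar v (w) / w = - π v 0`. -/
theorem pompeiu (v : ℂ → ℂ) (hv : ContDiff ℝ 1 v) (hc : HasCompactSupport v) :
    ∫ w : ℂ, dbar1 v w / w = -π * v 0 := by
  have hfc : Continuous (fderiv ℝ v) := hv.continuous_fderiv one_ne_zero
  obtain ⟨R, hR0, hR⟩ : ∃ R : ℝ, 0 < R ∧ ∀ w : ℂ, R ≤ ‖w‖ → v w = 0 := by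
    obtain ⟨R, hR⟩ := hc.isCompact.isBounded.subset_closedBall 0
    refine ⟨max (R + 1) 1, by positivity, fun w hw => ?_⟩
    by_contra h
    have h1 := hR (subset_tsupport v (Function.mem_support.mpr h))
    rw [mem_closedBall_zero_iff] at h1
    have := le_max_left (R + 1) 1
    linarith
  have hR' : ∀ w : ℂ, R < ‖w‖ → fderiv ℝ v w = 0 := by
    intro w hw
    have : v =ᶠ[𝓝 w] fun _ => 0 := by
      have h1 : {z : ℂ | R < ‖z‖} ∈ 𝓝 w := (isOpen_lt continuous_const continuous_norm).mem_nhds hw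
      filter_upwards [h1] with z hz
      exact hR z hz.le
    rw [this.fderiv_eq]
    simp
  have hnorm : ∀ r t : ℝ, ‖(r : ℂ) * uv t‖ = |r| := by
    intro r t
    rw [norm_mul, uv_norm, mul_one, Complex.norm_real, Real.norm_eq_abs]
  -- the two integrands
  let A : ℝ × ℝ → ℂ := fun p => fderiv ℝ v ((p.1 : ℂ) * uv p.2) (uv p.2)
  let B : ℝ × ℝ → ℂ := fun p => fderiv ℝ v ((p.1 : ℂ) * uv p.2) (Complex.I * uv p.2)
  have hA : Continuous A := by
    have h1 : Continuous fun p : ℝ × ℝ => fderiv ℝ v ((p.1 : ℂ) * uv p.2) :=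
      hfc.comp ((Complex.continuous_ofReal.comp continuous_fst).mul
        (uv_continuous.comp continuous_snd))
    exact h1.clm_apply (uv_continuous.comp continuous_snd)
  have hB : Continuous B := by
    have h1 : Continuous fun p : ℝ × ℝ => fderiv ℝ v ((p.1 : ℂ) * uv p.2) :=
      hfc.comp ((Complex.continuous_ofReal.comp continuous_fst).mul
        (uv_continuous.comp continuous_snd))
    exact h1.clm_apply (continuous_const.mul (uv_continuous.comp continuous_snd))
  have hA0 : ∀ p : ℝ × ℝ, R < |p.1| → A p = 0 := by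
    intro p hp
    show fderiv ℝ v ((p.1 : ℂ) * uv p.2) (uv p.2) = 0
    rw [hR' _ (by rw [hnorm]; exact hp)]
    rfl
  have hB0 : ∀ p : ℝ × ℝ, R < |p.1| → B p = 0 := by
    intro p hp
    show fderiv ℝ v ((p.1 : ℂ) * uv p.2) (Complex.I * uv p.2) = 0
    rw [hR' _ (by rw [hnorm]; exact hp)]
    rfl
  have hint : ∀ F : ℝ × ℝ → ℂ, Continuous F → (∀ p : ℝ × ℝ, R < |p.1| → F p = 0) →
      IntegrableOn F (Ioi (0 : ℝ) ×ˢ Ioo (-π) π) := by
    intro F hF hF0
    have h1 : IntegrableOn F (Icc (0 : ℝ) R ×ˢ Icc (-π) π) :=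
      hF.continuousOn.integrableOn_compact (isCompact_Icc.prod isCompact_Icc)
    have h2 : IntegrableOn F ((Ioi (0 : ℝ) ×ˢ Ioo (-π) π) ∩ {p | p.1 ≤ R}) := by
      apply h1.mono_set
      rintro p ⟨⟨h3, h4⟩, h5⟩
      exact ⟨⟨le_of_lt h3, h5⟩, ⟨h4.1.le, h4.2.le⟩⟩
    have hm : MeasurableSet {p : ℝ × ℝ | p.1 ≤ R} := (isClosed_le continuous_fst
      continuous_const).measurableSet
    have h3 : IntegrableOn F ((Ioi (0 : ℝ) ×ˢ Ioo (-π) π) \ {p | p.1 ≤ R}) := by
      have h4 : IntegrableOn (fun _ : ℝ × ℝ => (0 : ℂ))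
          ((Ioi (0 : ℝ) ×ˢ Ioo (-π) π) \ {p | p.1 ≤ R}) := integrableOn_zero
      refine h4.congr_fun (fun p hp => ?_)
        ((measurableSet_Ioi.prod measurableSet_Ioo).diff hm)
      rw [hF0]
      have : R < p.1 := lt_of_not_ge hp.2
      exact this.trans_le (le_abs_self _)
    have h5 := h2.union h3
    rwa [inter_union_sdiff] at h5
  have hAi := hint A hA hA0
  have hBi := hint B hB hB0
  -- integral of A
  have hIA : ∫ p in Ioi (0 : ℝ) ×ˢ Ioo (-π) π, A p = -(2 * π) * v 0 := by
    have h1 : ∫ p in Ioi (0 : ℝ) ×ˢ Ioo (-π) π, A p =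
        ∫ t in Ioo (-π) π, ∫ r in Ioi (0 : ℝ), A (r, t) := by
      have h0 : Integrable A ((volume.restrict (Ioi (0 : ℝ))).prod (volume.restrict (Ioo (-π) π))) := by
        rw [Measure.prod_restrict, ← Measure.volume_eq_prod]
        exact hAi
      rw [Measure.volume_eq_prod, ← Measure.prod_restrict, integral_prod_symm A h0]
    have h2 : ∀ t : ℝ, ∫ r in Ioi (0 : ℝ), A (r, t) = - v 0 := by
      intro t
      have h3 := integral_Ioi_of_hasDerivAt_of_tendsto (f := fun r : ℝ => v ((r : ℂ) * uv t))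
        (f' := fun r => A (r, t)) (a := 0) (m := 0) ?_ ?_ ?_ ?_
      · rw [h3]
        simp
      · exact (hasDerivAt_ray v hv t 0).continuousAt.continuousWithinAt
      · intro r _
        exact hasDerivAt_ray v hv t r
      · have h4 : IntegrableOn (fun r => A (r, t)) (Icc (0 : ℝ) R) :=
          (hA.comp (continuous_id.prodMk continuous_const)).continuousOn.integrableOn_compact
            isCompact_Icc
        have h5 : IntegrableOn (fun r => A (r, t)) (Ioi R) := by
          have h6 : IntegrableOn (fun _ : ℝ => (0 : ℂ)) (Ioi R) := integrableOn_zero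
          refine h6.congr_fun (fun r hr => ?_) measurableSet_Ioi
          rw [hA0]
          exact (show R < r from hr).trans_le (le_abs_self _)
        apply (h4.union h5).mono_set
        intro r hr
        rcases le_or_gt r R with h7 | h7
        · exact Or.inl ⟨le_of_lt hr, h7⟩
        · exact Or.inr h7
      · apply tendsto_const_nhds.congr'
        filter_upwards [eventually_ge_atTop R] with r hr
        rw [hR]
        rw [hnorm]
        exact hr.trans (le_abs_self _)
    rw [h1]
    simp_rw [h2]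
    rw [setIntegral_const]
    simp only [Measure.real, Real.volume_Ioo]
    rw [ENNReal.toReal_ofReal (by linarith [Real.pi_pos]), Complex.real_smul]
    push_cast
    ring
  have hIB : ∫ p in Ioi (0 : ℝ) ×ˢ Ioo (-π) π, B p = 0 := by
    rw [Measure.volume_eq_prod, setIntegral_prod _ (by rw [← Measure.volume_eq_prod]; exact hBi)]
    have h2 : ∀ r ∈ Ioi (0 : ℝ), ∫ t in Ioo (-π) π, B (r, t) = 0 := by
      intro r hr
      have hr0 : (0 : ℝ) < r := hr
      have h3 : ∫ t in (-π)..π, (r : ℝ) • B (r, t) = v ((r : ℂ) * uv π) - v ((r : ℂ) * uv (-π)) := by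
        refine intervalIntegral.integral_eq_sub_of_hasDerivAt
          (f := fun t : ℝ => v ((r : ℂ) * uv t)) (f' := fun t : ℝ => (r : ℝ) • B (r, t)) ?_ ?_
        · intro t _
          exact hasDerivAt_circ v hv r t
        · apply Continuous.intervalIntegrable
          exact (hB.comp (continuous_const.prodMk continuous_id)).const_smul r
      have h4 : uv π = uv (-π) := by
        unfold uv
        simp
      rw [h4, sub_self, intervalIntegral.integral_smul, smul_eq_zero] at h3
      have h5 := h3.resolve_left hr0.ne'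
      rw [intervalIntegral.integral_of_le (by linarith [Real.pi_pos])] at h5
      rw [← integral_Ioc_eq_integral_Ioo]
      exact h5
    rw [setIntegral_congr_fun measurableSet_Ioi h2]
    simp
  rw [← Complex.integral_comp_polarCoord_symm]
  have h1 : ∫ p in polarCoord.target, p.1 • (dbar1 v (Complex.polarCoord.symm p) /
      (Complex.polarCoord.symm p)) = ∫ p in Ioi (0 : ℝ) ×ˢ Ioo (-π) π,
        ((1 / 2 : ℂ) * (A p + Complex.I * B p)) := by
    apply setIntegral_congr_fun (measurableSet_Ioi.prod measurableSet_Ioo)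
    intro p hp
    simp only
    rw [Complex.polarCoord_symm_apply]
    exact polar_id v p.1 p.2 hp.1
  rw [h1, integral_const_mul, integral_add hAi (hBi.const_mul _), integral_const_mul, hIA, hIB]
  ring

end Pool.Agent.H71.Top
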