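import Mathlib
import Pool.Agent.H71.Top.Pompeiu

set_option autoImplicit false

/-!
# The Cauchy transform in one of several complex variables
-/

namespace Pool.Agent.H71.Top

open MeasureTheory Set Filter Topology
open scoped Real ContDiff ENNReal

theorem locallyIntegrable_inv : LocallyIntegrable (fun w : ℂ => w⁻¹) := by
  have key : ∀ R : ℝ, 0 < R → IntegrableOn (fun w : ℂ => w⁻¹) (Metric.ball 0 R) := by
    intro R hR
    refine ⟨(measurable_inv).aestronglyMeasurable, ?_⟩
    show ∫⁻ w in Metric.ball (0 : ℂ) R, ‖w⁻¹‖ₑ < ⊤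
    rw [← lintegral_indicator Metric.isOpen_ball.measurableSet,
      ← Complex.lintegral_comp_polarCoord_symm]
    have h1 : ∀ p ∈ polarCoord.target, ENNReal.ofReal p.1 •
        (Metric.ball (0 : ℂ) R).indicator (fun w => ‖w⁻¹‖ₑ) (Complex.polarCoord.symm p) ≤
        (Iio R ×ˢ univ).indicator (fun _ => (1 : ℝ≥0∞)) p := by
      rintro ⟨r, t⟩ hp
      have hr : 0 < r := hp.1
      have hn : ‖Complex.polarCoord.symm (r, t)‖ = r := by
        rw [Complex.norm_polarCoord_symm, abs_of_pos hr]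
      by_cases h : Complex.polarCoord.symm (r, t) ∈ Metric.ball (0 : ℂ) R
      · rw [indicator_of_mem h]
        have h' : r < R := by
          rw [mem_ball_zero_iff, hn] at h
          exact h
        rw [indicator_of_mem (show (r, t) ∈ Iio R ×ˢ (univ : Set ℝ) from ⟨h', mem_univ _⟩),
          enorm_inv (by rw [← norm_ne_zero_iff, hn]; exact hr.ne'), ← ofReal_norm, hn, smul_eq_mul,
          ENNReal.mul_inv_cancel (by simpa using hr) ENNReal.ofReal_ne_top]
      · rw [indicator_of_notMem h]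
        simp
    refine lt_of_le_of_lt (setLIntegral_mono' (measurableSet_Ioi.prod measurableSet_Ioo) h1) ?_
    rw [lintegral_indicator (measurableSet_Iio.prod MeasurableSet.univ), setLIntegral_const,
      one_mul, Measure.restrict_apply (measurableSet_Iio.prod MeasurableSet.univ)]
    have h2 : (Iio R ×ˢ (univ : Set ℝ)) ∩ (Ioi (0 : ℝ) ×ˢ Ioo (-π) π) ⊆
        Icc 0 R ×ˢ Icc (-π) π := by
      rintro p ⟨⟨h3, -⟩, h4, h5⟩
      exact ⟨⟨le_of_lt h4, le_of_lt h3⟩, ⟨h5.1.le, h5.2.le⟩⟩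
    exact lt_of_le_of_lt (measure_mono h2)
      (isCompact_Icc.prod isCompact_Icc).measure_lt_top
  intro w
  refine ⟨Metric.ball 0 (‖w‖ + 1), Metric.isOpen_ball.mem_nhds ?_, key _ (by positivity)⟩
  rw [mem_ball_zero_iff]
  linarith

variable {n : ℕ}

/-- the Wirtinger derivative with respect to the conjugate of the `j`-th variable -/
noncomputable def dbar (j : Fin n) (u : (Fin n → ℂ) → ℂ) (z : Fin n → ℂ) : ℂ :=
  (1 / 2 : ℂ) * (fderiv ℝ u z (Pi.single j 1) + Complex.I * fderiv ℝ u z (Pi.single j Complex.I))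

/-- the Cauchy transform in the `j`-th variable -/
noncomputable def ct (j : Fin n) (u : (Fin n → ℂ) → ℂ) (z : Fin n → ℂ) : ℂ :=
  (1 / π : ℂ) * ∫ w : ℂ, w⁻¹ * u (z - Pi.single j w)

/-- `Pi.single j` as a real linear map -/
noncomputable def sg (j : Fin n) : ℂ →L[ℝ] (Fin n → ℂ) :=
  (ContinuousLinearMap.single ℝ (fun _ : Fin n => ℂ) j)

theorem sg_apply (j : Fin n) (w : ℂ) : sg j w = Pi.single j w := rfl

theorem exists_bound {u : (Fin n → ℂ) → ℂ} (hc : HasCompactSupport u) :
    ∃ R : ℝ, 0 < R ∧ ∀ z, R < ‖z‖ → u z = 0 := by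
  obtain ⟨R, hR⟩ := hc.isCompact.isBounded.subset_closedBall 0
  refine ⟨max R 1, by positivity, fun w hw => ?_⟩
  by_contra h
  have h1 := hR (subset_tsupport u (Function.mem_support.mpr h))
  rw [mem_closedBall_zero_iff] at h1
  have := le_max_left R 1
  linarith

/-- the auxiliary function of the convolution -/
def gg (j : Fin n) (u : (Fin n → ℂ) → ℂ) (p : Fin n → ℂ) (x : ℂ) : ℂ := u (p + Pi.single j x)

theorem gg_zero {j : Fin n} {u : (Fin n → ℂ) → ℂ} {R M : ℝ} (hR : ∀ z, R < ‖z‖ → u z = 0)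
    (p : Fin n → ℂ) (x : ℂ) (hp : p ∈ Metric.ball (0 : Fin n → ℂ) M)
    (hx : x ∉ Metric.closedBall (0 : ℂ) (R + M)) : gg j u p x = 0 := by
  apply hR
  rw [mem_ball_zero_iff] at hp
  rw [mem_closedBall_zero_iff, not_le] at hx
  have h1 : ‖x‖ ≤ ‖(Pi.single j x : Fin n → ℂ)‖ := by
    have := norm_le_pi_norm (Pi.single j x : Fin n → ℂ) j
    rwa [Pi.single_eq_same] at this
  have h2 : ‖(Pi.single j x : Fin n → ℂ)‖ ≤ ‖p + Pi.single j x‖ + ‖p‖ := by
    have := norm_sub_le (p + Pi.single j x) p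
    rwa [add_sub_cancel_left] at this
  linarith

theorem gg_contDiff {j : Fin n} {u : (Fin n → ℂ) → ℂ} {m : WithTop ℕ∞} (hu : ContDiff ℝ m u) :
    ContDiff ℝ m (Function.uncurry (gg j u)) := by
  have : Function.uncurry (gg j u) = fun q : (Fin n → ℂ) × ℂ => u (q.1 + sg j q.2) := by
    ext q
    rfl
  rw [this]
  exact hu.comp (contDiff_fst.add ((sg j).contDiff.comp contDiff_snd))

theorem ct_eq_conv (j : Fin n) (u : (Fin n → ℂ) → ℂ) (z : Fin n → ℂ) :
    ct j u z = (1 / π : ℂ) *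
      (convolution (fun w : ℂ => w⁻¹) (gg j u z) (ContinuousLinearMap.mul ℝ ℂ) volume) 0 := by
  unfold ct convolution gg
  simp only [ContinuousLinearMap.mul_apply', zero_sub]
  congr 1
  apply integral_congr_ae
  refine Filter.Eventually.of_forall fun w => ?_
  simp only
  rw [sub_eq_add_neg, Pi.single_neg]

theorem ct_contDiff (j : Fin n) {u : (Fin n → ℂ) → ℂ} (hu : ContDiff ℝ ∞ u)
    (hc : HasCompactSupport u) : ContDiff ℝ ∞ (ct j u) := by
  obtain ⟨R, hR0, hR⟩ := exists_bound hc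
  rw [contDiff_iff_contDiffAt]
  intro z
  have hs : IsOpen (Metric.ball (0 : Fin n → ℂ) (‖z‖ + 1)) := Metric.isOpen_ball
  have h1 := contDiffOn_convolution_right_with_param_comp (n := ⊤) (ContinuousLinearMap.mul ℝ ℂ)
    (s := Metric.ball (0 : Fin n → ℂ) (‖z‖ + 1)) (v := fun _ => (0 : ℂ)) contDiffOn_const
    (f := fun w : ℂ => w⁻¹) (g := gg j u) (k := Metric.closedBall (0 : ℂ) (R + (‖z‖ + 1)))
    (μ := volume) hs (isCompact_closedBall _ _) (fun p x hp hx => gg_zero hR p x hp hx)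
    locallyIntegrable_inv (gg_contDiff hu).contDiffOn
  have h2 : ContDiffAt ℝ ∞ (fun x : Fin n → ℂ =>
      (convolution (fun w : ℂ => w⁻¹) (gg j u x) (ContinuousLinearMap.mul ℝ ℂ) volume) 0) z :=
    h1.contDiffAt (hs.mem_nhds (by rw [mem_ball_zero_iff]; linarith))
  have h3 : ct j u = fun z => (1 / π : ℂ) *
      (convolution (fun w : ℂ => w⁻¹) (gg j u z) (ContinuousLinearMap.mul ℝ ℂ) volume) 0 :=
    funext fun z => ct_eq_conv j u z
  rw [h3]
  exact contDiffAt_const.mul h2

theorem ct_fderiv (j : Fin n) {u : (Fin n → ℂ) → ℂ} (hu : ContDiff ℝ ∞ u)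
    (hc : HasCompactSupport u) (z e : Fin n → ℂ) :
    fderiv ℝ (ct j u) z e = ct j (fun x => fderiv ℝ u x e) z := by
  obtain ⟨R, hR0, hR⟩ := exists_bound hc
  have hs : IsOpen (Metric.ball (0 : Fin n → ℂ) (‖z‖ + 1)) := Metric.isOpen_ball
  have hz : z ∈ Metric.ball (0 : Fin n → ℂ) (‖z‖ + 1) := by
    rw [mem_ball_zero_iff]; linarith
  have hg1 : ContDiff ℝ 1 (Function.uncurry (gg j u)) := gg_contDiff (hu.of_le (by simp))
  have h1 := hasFDerivAt_convolution_right_with_param (ContinuousLinearMap.mul ℝ ℂ)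
    (s := Metric.ball (0 : Fin n → ℂ) (‖z‖ + 1))
    (f := fun w : ℂ => w⁻¹) (g := gg j u) (k := Metric.closedBall (0 : ℂ) (R + (‖z‖ + 1)))
    (μ := volume) hs (isCompact_closedBall _ _) (fun p x hp hx => gg_zero hR p x hp hx)
    locallyIntegrable_inv hg1.contDiffOn (z, 0) hz
  have h2 : HasFDerivAt (fun x : Fin n → ℂ => (x, (0 : ℂ)))
      (ContinuousLinearMap.inl ℝ (Fin n → ℂ) ℂ) z := by
    have := (ContinuousLinearMap.inl ℝ (Fin n → ℂ) ℂ).hasFDerivAt (x := z)
    exact this
  have h3 := h1.comp z h2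
  have h4 : ct j u = fun z => (1 / π : ℂ) *
      (convolution (fun w : ℂ => w⁻¹) (gg j u z) (ContinuousLinearMap.mul ℝ ℂ) volume) 0 :=
    funext fun z => ct_eq_conv j u z
  have h5 : HasFDerivAt (ct j u) ((1 / π : ℂ) • (((convolution (fun w : ℂ => w⁻¹)
      (fun x : ℂ => fderiv ℝ (Function.uncurry (gg j u)) (z, x))
      ((ContinuousLinearMap.mul ℝ ℂ).precompR ((Fin n → ℂ) × ℂ)) volume) 0).comp
      (ContinuousLinearMap.inl ℝ (Fin n → ℂ) ℂ))) z := by
    rw [h4]
    exact h3.const_mul (1 / π : ℂ)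
  rw [h5.fderiv]
  have hfd : ∀ x : ℂ, fderiv ℝ (Function.uncurry (gg j u)) (z, x) (e, 0) =
      fderiv ℝ u (z + Pi.single j x) e := by
    intro x
    have h6 : Function.uncurry (gg j u) = u ∘ fun q : (Fin n → ℂ) × ℂ => q.1 + sg j q.2 := by
      ext q
      rfl
    have h7 : HasFDerivAt (fun q : (Fin n → ℂ) × ℂ => q.1 + sg j q.2)
        (ContinuousLinearMap.fst ℝ (Fin n → ℂ) ℂ +
          (sg j).comp (ContinuousLinearMap.snd ℝ (Fin n → ℂ) ℂ)) (z, x) :=
      (hasFDerivAt_fst).add ((sg j).hasFDerivAt.comp _ hasFDerivAt_snd)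
    have h8 : HasFDerivAt u (fderiv ℝ u (z + sg j x)) (z + sg j x) :=
      (hu.differentiable (by simp) _).hasFDerivAt
    have h9 := HasFDerivAt.comp (z, x) h8 h7
    rw [h6, h9.fderiv]
    simp [sg_apply]
  have hcs : HasCompactSupport (fun x : ℂ => fderiv ℝ (Function.uncurry (gg j u)) (z, x)) := by
    apply HasCompactSupport.of_support_subset_isCompact
      (isCompact_closedBall (0 : ℂ) (R + (‖z‖ + 1)))
    intro x hx
    by_contra hx'
    apply hx
    refine (hasFDerivAt_zero_of_eventually_const 0 ?_).fderiv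
    have M2 : (Metric.closedBall (0 : ℂ) (R + (‖z‖ + 1)))ᶜ ∈ 𝓝 x :=
      Metric.isClosed_closedBall.isOpen_compl.mem_nhds hx'
    have M1 := hs.mem_nhds hz
    rw [nhds_prod_eq]
    filter_upwards [prod_mem_prod M1 M2]
    rintro ⟨p, y⟩ ⟨hp, hy⟩
    exact gg_zero hR p y hp hy
  have hcont : Continuous (fun x : ℂ => fderiv ℝ (Function.uncurry (gg j u)) (z, x)) :=
    (hg1.continuous_fderiv one_ne_zero).comp (continuous_const.prodMk continuous_id)
  rw [smul_apply, ContinuousLinearMap.comp_apply, ContinuousLinearMap.inl_apply,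
    convolution_precompR_apply _ locallyIntegrable_inv hcs hcont, smul_eq_mul, ct]
  congr 1
  unfold convolution
  simp only [ContinuousLinearMap.mul_apply', zero_sub]
  apply integral_congr_ae
  refine Filter.Eventually.of_forall fun w => ?_
  simp only
  rw [hfd, sub_eq_add_neg, Pi.single_neg]

theorem ct_integrable (j : Fin n) {u : (Fin n → ℂ) → ℂ} (hu : Continuous u)
    (hc : HasCompactSupport u) (z : Fin n → ℂ) :
    Integrable fun w : ℂ => w⁻¹ * u (z - Pi.single j w) := by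
  obtain ⟨R, hR0, hR⟩ := exists_bound hc
  have hcont : Continuous fun w : ℂ => u (z - Pi.single j w) :=
    hu.comp (continuous_const.sub (sg j).continuous)
  have hcs : HasCompactSupport fun w : ℂ => u (z - Pi.single j w) := by
    apply HasCompactSupport.of_support_subset_isCompact
      (isCompact_closedBall (0 : ℂ) (R + (‖z‖ + 1)))
    intro x hx
    by_contra hx'
    apply hx
    have h1 := gg_zero (j := j) hR z (-x) (M := ‖z‖ + 1) (by rw [mem_ball_zero_iff]; linarith)
      (by rw [mem_closedBall_zero_iff, norm_neg, ← mem_closedBall_zero_iff]; exact hx')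
    show u (z - Pi.single j x) = 0
    rw [sub_eq_add_neg, ← Pi.single_neg]
    exact h1
  have h2 := locallyIntegrable_inv.integrable_smul_right_of_hasCompactSupport hcont hcs
  exact h2

theorem dbar_ct (j : Fin n) {u : (Fin n → ℂ) → ℂ} (hu : ContDiff ℝ ∞ u)
    (hc : HasCompactSupport u) (z : Fin n → ℂ) : dbar j (ct j u) z = u z := by
  unfold dbar
  rw [ct_fderiv j hu hc, ct_fderiv j hu hc]
  have hd : ∀ e : Fin n → ℂ, Continuous fun x => fderiv ℝ u x e := fun e =>
    (hu.continuous_fderiv (by simp)).clm_apply continuous_const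
  have hcd : ∀ e : Fin n → ℂ, HasCompactSupport fun x => fderiv ℝ u x e := fun e =>
    hc.fderiv_apply (𝕜 := ℝ) e
  have i1 := ct_integrable j (hd (Pi.single j 1)) (hcd _) z
  have i2 := ct_integrable j (hd (Pi.single j Complex.I)) (hcd _) z
  unfold ct
  let v : ℂ → ℂ := fun w => u (z - Pi.single j w)
  have hv : ContDiff ℝ ∞ v := hu.comp (contDiff_const.sub (sg j).contDiff)
  have hvc : HasCompactSupport v := by
    obtain ⟨R, hR0, hR⟩ := exists_bound hc
    apply HasCompactSupport.of_support_subset_isCompact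
      (isCompact_closedBall (0 : ℂ) (R + (‖z‖ + 1)))
    intro x hx
    by_contra hx'
    apply hx
    have h1 := gg_zero (j := j) hR z (-x) (M := ‖z‖ + 1) (by rw [mem_ball_zero_iff]; linarith)
      (by rw [mem_closedBall_zero_iff, norm_neg, ← mem_closedBall_zero_iff]; exact hx')
    show u (z - Pi.single j x) = 0
    rw [sub_eq_add_neg, ← Pi.single_neg]
    exact h1
  have hp := pompeiu v (hv.of_le (by simp)) hvc
  have hdv : ∀ w e : ℂ, fderiv ℝ v w e = - fderiv ℝ u (z - Pi.single j w) (Pi.single j e) := by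
    intro w e
    have h7 : HasFDerivAt (fun w : ℂ => z - sg j w) (-(sg j)) w := by
      have := (sg j).hasFDerivAt (x := w)
      exact this.const_sub z
    have h8 : HasFDerivAt u (fderiv ℝ u (z - sg j w)) (z - sg j w) :=
      (hu.differentiable (by simp) _).hasFDerivAt
    have h9 := HasFDerivAt.comp w h8 h7
    have h10 : v = u ∘ fun w : ℂ => z - sg j w := rfl
    rw [h10, h9.fderiv]
    simp [sg_apply]
  have h1 : ∀ w : ℂ, dbar1 v w / w = -((1 / 2 : ℂ) * (w⁻¹ * fderiv ℝ u (z - Pi.single j w)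
      (Pi.single j 1) + Complex.I * (w⁻¹ * fderiv ℝ u (z - Pi.single j w)
        (Pi.single j Complex.I)))) := by
    intro w
    rw [dbar1, hdv, hdv, div_eq_mul_inv]
    ring
  simp_rw [h1] at hp
  rw [integral_neg, integral_const_mul, integral_add i1 (i2.const_mul _), integral_const_mul] at hp
  have hv0 : v 0 = u z := by
    show u (z - Pi.single j 0) = u z
    rw [Pi.single_zero, sub_zero]
  rw [hv0] at hp
  have hpi : (π : ℂ) ≠ 0 := by exact_mod_cast Real.pi_pos.ne'
  have h2 : (1 / 2 : ℂ) * ((1 / π : ℂ) * (∫ w : ℂ, w⁻¹ * fderiv ℝ u (z - Pi.single j w)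
      (Pi.single j 1)) + Complex.I * ((1 / π : ℂ) * ∫ w : ℂ, w⁻¹ * fderiv ℝ u (z - Pi.single j w)
        (Pi.single j Complex.I))) = (1 / π : ℂ) * (π * u z) := by
    linear_combination (-(1 / π : ℂ)) * hp
  rw [h2]
  field_simp

end Pool.Agent.H71.Top
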