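import Mathlib
import Pool.Agent.H71.Top.Transform

set_option autoImplicit false

/-!
# Top degree dbar: reduction to a smooth off-diagonal product kernel
-/

namespace Pool.Agent.H71.Top

open MeasureTheory Set Filter Topology
open scoped Real ContDiff ENNReal

/-- the cutoff -/
noncomputable def bump : ContDiffBump (0 : ℂ) := ⟨3, 7 / 2, by norm_num, by norm_num⟩

/-- the complex valued cutoff: `1` on the disc of radius 3, `0` off the disc of radius 7/2 -/
noncomputable def th (w : ℂ) : ℂ := ((bump w : ℝ) : ℂ)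

theorem th_contDiff : ContDiff ℝ ∞ th := Complex.ofRealCLM.contDiff.comp bump.contDiff

theorem th_one {w : ℂ} (hw : ‖w‖ ≤ 3) : th w = 1 := by
  unfold th
  rw [bump.one_of_mem_closedBall (by rw [mem_closedBall_zero_iff]; exact hw), Complex.ofReal_one]

theorem th_zero {w : ℂ} (hw : 7 / 2 ≤ ‖w‖) : th w = 0 := by
  unfold th
  rw [bump.zero_of_le_dist (by rw [dist_zero_right]; exact hw), Complex.ofReal_zero]

theorem dbar1_contDiff {v : ℂ → ℂ} (hv : ContDiff ℝ ∞ v) : ContDiff ℝ ∞ (dbar1 v) := by
  unfold dbar1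
  have h1 : ContDiff ℝ ∞ (fderiv ℝ v) := hv.fderiv_right (by simp)
  exact contDiff_const.mul ((h1.clm_apply contDiff_const).add
    (contDiff_const.mul (h1.clm_apply contDiff_const)))

theorem dbar1_eq_zero {v : ℂ → ℂ} {w c : ℂ} (h : v =ᶠ[𝓝 w] fun _ => c) : dbar1 v w = 0 := by
  unfold dbar1
  rw [h.fderiv_eq]
  simp

theorem dbar1_th_in {w : ℂ} (hw : ‖w‖ < 3) : dbar1 th w = 0 := by
  apply dbar1_eq_zero (c := 1)
  filter_upwards [(isOpen_lt continuous_norm continuous_const).mem_nhds hw] with z hz
  exact th_one (le_of_lt hz)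

theorem dbar1_th_out {w : ℂ} (hw : 7 / 2 < ‖w‖) : dbar1 th w = 0 := by
  apply dbar1_eq_zero (c := 0)
  filter_upwards [(isOpen_lt continuous_const continuous_norm).mem_nhds hw] with z hz
  exact th_zero (le_of_lt hz)

theorem dbar1_th_bound : ∃ C : ℝ, 0 ≤ C ∧ ∀ w, ‖dbar1 th w‖ ≤ C := by
  have hc : HasCompactSupport (dbar1 th) := by
    apply HasCompactSupport.of_support_subset_isCompact (isCompact_closedBall (0 : ℂ) (7 / 2))
    intro w hw
    rw [mem_closedBall_zero_iff]
    by_contra h
    exact hw (dbar1_th_out (not_le.mp h))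
  obtain ⟨C, hC⟩ := hc.exists_bound_of_continuous (dbar1_contDiff th_contDiff).continuous
  exact ⟨C, (norm_nonneg _).trans (hC 0), hC⟩

/-- the off-diagonal kernel -/
noncomputable def kap (x w : ℂ) : ℂ := if ‖w‖ ≤ 2 then -(1 / π : ℂ) * dbar1 th x * (x - w)⁻¹ else 0

theorem kap_bound : ∃ C : ℝ, 0 ≤ C ∧ ∀ x w, ‖kap x w‖ ≤ C := by
  obtain ⟨C, hC0, hC⟩ := dbar1_th_bound
  refine ⟨C, hC0, fun x w => ?_⟩
  unfold kap
  split_ifs with hw
  · by_cases hx : ‖x‖ < 3
    · rw [dbar1_th_in hx]
      simpa using hC0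
    · push Not at hx
      have h1 : 1 ≤ ‖x - w‖ := by
        have := norm_sub_norm_le x w
        linarith
      rw [norm_mul, norm_mul, norm_neg, norm_inv]
      have h2 : ‖(1 / π : ℂ)‖ ≤ 1 := by
        rw [norm_div, norm_one, Complex.norm_real, Real.norm_eq_abs, abs_of_pos Real.pi_pos]
        rw [div_le_one Real.pi_pos]
        linarith [Real.pi_gt_three]
      have h3 : ‖x - w‖⁻¹ ≤ 1 := inv_le_one_of_one_le₀ h1
      have h4 := hC x
      have h5 : 0 ≤ ‖x - w‖⁻¹ := by positivity
      calc ‖(1 / π : ℂ)‖ * ‖dbar1 th x‖ * ‖x - w‖⁻¹ ≤ 1 * C * 1 := by gcongr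
        _ = C := by ring
  · simpa using hC0

theorem kap_measurable (x : ℂ) : Measurable (kap x) := by
  unfold kap
  apply Measurable.ite (measurableSet_le measurable_norm measurable_const)
  · exact (measurable_const.sub measurable_id).inv.const_mul _
  · exact measurable_const

theorem kap_zero {x w : ℂ} (hw : 2 < ‖w‖) : kap x w = 0 := by
  unfold kap
  rw [if_neg (not_le.mpr hw)]

variable {n : ℕ}

theorem dbar_add (j : Fin n) {u v : (Fin n → ℂ) → ℂ} {z : Fin n → ℂ}
    (hu : DifferentiableAt ℝ u z) (hv : DifferentiableAt ℝ v z) :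
    dbar j (fun x => u x + v x) z = dbar j u z + dbar j v z := by
  unfold dbar
  rw [fderiv_fun_add hu hv]
  simp only [add_apply]
  ring

theorem dbar_zero (j : Fin n) (z : Fin n → ℂ) : dbar j (fun _ => 0) z = 0 := by
  unfold dbar
  simp

theorem dbar_mul (j : Fin n) {u v : (Fin n → ℂ) → ℂ} {z : Fin n → ℂ}
    (hu : DifferentiableAt ℝ u z) (hv : DifferentiableAt ℝ v z) :
    dbar j (fun x => u x * v x) z = dbar j u z * v z + u z * dbar j v z := by
  unfold dbar
  rw [fderiv_fun_mul hu hv]
  simp only [add_apply, smul_apply, smul_eq_mul]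
  ring

theorem dbar_coord (j : Fin n) {v : ℂ → ℂ} {z : Fin n → ℂ} (hv : DifferentiableAt ℝ v (z j)) :
    dbar j (fun x => v (x j)) z = dbar1 v (z j) := by
  unfold dbar dbar1
  have h1 : HasFDerivAt (fun x : Fin n → ℂ => v (x j))
      ((fderiv ℝ v (z j)).comp (ContinuousLinearMap.proj (R := ℝ) (φ := fun _ : Fin n => ℂ) j)) z :=
    HasFDerivAt.comp z (hv.hasFDerivAt) (ContinuousLinearMap.proj (R := ℝ)
      (φ := fun _ : Fin n => ℂ) j).hasFDerivAt
  rw [h1.fderiv]
  simp

/-- the operator in the `j`-th variable -/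
noncomputable def tj (j : Fin n) (u : (Fin n → ℂ) → ℂ) (z : Fin n → ℂ) : ℂ :=
  -(dbar1 th (z j)) * ct j u z

/-- the primitive in the `j`-th variable -/
noncomputable def hj (j : Fin n) (u : (Fin n → ℂ) → ℂ) (z : Fin n → ℂ) : ℂ :=
  th (z j) * ct j u z

theorem coord_contDiff (j : Fin n) {v : ℂ → ℂ} (hv : ContDiff ℝ ∞ v) :
    ContDiff ℝ ∞ fun z : Fin n → ℂ => v (z j) :=
  hv.comp (ContinuousLinearMap.proj (R := ℝ) (φ := fun _ : Fin n => ℂ) j).contDiff

theorem tj_contDiff (j : Fin n) {u : (Fin n → ℂ) → ℂ} (hu : ContDiff ℝ ∞ u)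
    (hc : HasCompactSupport u) : ContDiff ℝ ∞ (tj j u) :=
  (coord_contDiff j (dbar1_contDiff th_contDiff)).neg.mul (ct_contDiff j hu hc)

theorem hj_contDiff (j : Fin n) {u : (Fin n → ℂ) → ℂ} (hu : ContDiff ℝ ∞ u)
    (hc : HasCompactSupport u) : ContDiff ℝ ∞ (hj j u) :=
  (coord_contDiff j th_contDiff).mul (ct_contDiff j hu hc)

theorem step (j : Fin n) {u : (Fin n → ℂ) → ℂ} (hu : ContDiff ℝ ∞ u)
    (hc : HasCompactSupport u) (hs : ∀ z, u z ≠ 0 → ‖z j‖ ≤ 3) (z : Fin n → ℂ) :
    u z = tj j u z + dbar j (hj j u) z := by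
  have h1 : dbar j (hj j u) z = dbar1 th (z j) * ct j u z + th (z j) * u z := by
    unfold hj
    rw [dbar_mul j ((coord_contDiff j th_contDiff).differentiable (by simp) z)
      ((ct_contDiff j hu hc).differentiable (by simp) z),
      dbar_coord j (th_contDiff.differentiable (by simp) _), dbar_ct j hu hc]
  rw [h1, tj]
  by_cases h : u z = 0
  · rw [h]
    ring
  · rw [th_one (hs z h)]
    ring

theorem ct_ne_zero {j : Fin n} {u : (Fin n → ℂ) → ℂ} {z : Fin n → ℂ} (h : ct j u z ≠ 0) :
    ∃ w : ℂ, u (z - Pi.single j w) ≠ 0 := by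
  by_contra h1
  push Not at h1
  apply h
  unfold ct
  simp [h1]

theorem tj_eq (j : Fin n) {u : (Fin n → ℂ) → ℂ} (hs : ∀ z, u z ≠ 0 → ‖z j‖ ≤ 1)
    (z : Fin n → ℂ) : tj j u z = ∫ w : ℂ, kap (z j) w * u (Function.update z j w) := by
  unfold tj ct
  rw [← integral_sub_left_eq_self (fun w : ℂ => w⁻¹ * u (z - (Pi.single j w : Fin n → ℂ)))
    volume (z j),
    ← mul_assoc, ← integral_const_mul]
  apply integral_congr_ae
  refine Filter.Eventually.of_forall fun w => ?_
  simp only
  have h1 : z - Pi.single j (z j - w) = Function.update z j w := by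
    ext k
    by_cases hk : k = j
    · subst hk
      simp
    · simp [hk]
  rw [h1]
  by_cases h : u (Function.update z j w) = 0
  · rw [h]
    ring
  · have h2 := hs _ h
    rw [Function.update_self] at h2
    unfold kap
    rw [if_pos (by linarith)]
    ring

/-- iteration over a list of variables -/
noncomputable def TL : List (Fin n) → ((Fin n → ℂ) → ℂ) → (Fin n → ℂ) → ℂ
  | [], u => u
  | j :: l, u => tj j (TL l u)

/-- smooth functions supported in a polydisc of radius `7/2` in the variables of `l` and of radius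
`1` in the other variables -/
def Good (l : List (Fin n)) (u : (Fin n → ℂ) → ℂ) : Prop :=
  ContDiff ℝ ∞ u ∧ ∀ z, u z ≠ 0 → ∀ k, ‖z k‖ ≤ 7 / 2 ∧ (k ∉ l → ‖z k‖ ≤ 1)

theorem Good.hcs {l : List (Fin n)} {u : (Fin n → ℂ) → ℂ} (h : Good l u) :
    HasCompactSupport u := by
  apply HasCompactSupport.of_support_subset_isCompact
    (isCompact_closedBall (0 : Fin n → ℂ) (7 / 2))
  intro z hz
  rw [mem_closedBall_zero_iff, pi_norm_le_iff_of_nonneg (by norm_num)]
  exact fun k => (h.2 z hz k).1

theorem Good.tj {l : List (Fin n)} {u : (Fin n → ℂ) → ℂ} (h : Good l u) {j : Fin n} :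
    Good (j :: l) (tj j u) := by
  refine ⟨tj_contDiff j h.1 h.hcs, fun z hz k => ?_⟩
  have h1 : dbar1 th (z j) ≠ 0 := fun h0 => hz (by unfold Top.tj; rw [h0]; ring)
  have h2 : ct j u z ≠ 0 := fun h0 => hz (by unfold Top.tj; rw [h0]; ring)
  obtain ⟨w, hw⟩ := ct_ne_zero h2
  by_cases hk : k = j
  · subst hk
    refine ⟨?_, fun h3 => absurd List.mem_cons_self h3⟩
    by_contra h3
    exact h1 (dbar1_th_out (not_le.mp h3))
  · have h3 := h.2 _ hw k
    rw [Pi.sub_apply, Pi.single_eq_of_ne hk, sub_zero] at h3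
    exact ⟨h3.1, fun h4 => h3.2 (fun h5 => h4 (List.mem_cons_of_mem _ h5))⟩

theorem Good.hj {l : List (Fin n)} {u : (Fin n → ℂ) → ℂ} (h : Good l u) {j : Fin n} :
    Good (j :: l) (hj j u) := by
  refine ⟨hj_contDiff j h.1 h.hcs, fun z hz k => ?_⟩
  have h1 : th (z j) ≠ 0 := fun h0 => hz (by unfold Top.hj; rw [h0]; ring)
  have h2 : ct j u z ≠ 0 := fun h0 => hz (by unfold Top.hj; rw [h0]; ring)
  obtain ⟨w, hw⟩ := ct_ne_zero h2
  by_cases hk : k = j
  · subst hk
    refine ⟨?_, fun h3 => absurd List.mem_cons_self h3⟩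
    by_contra h3
    exact h1 (th_zero (le_of_lt (not_le.mp h3)))
  · have h3 := h.2 _ hw k
    rw [Pi.sub_apply, Pi.single_eq_of_ne hk, sub_zero] at h3
    exact ⟨h3.1, fun h4 => h3.2 (fun h5 => h4 (List.mem_cons_of_mem _ h5))⟩

theorem good_TL (l : List (Fin n)) {u : (Fin n → ℂ) → ℂ} (h : Good [] u) : Good l (TL l u) := by
  induction l with
  | nil => exact h
  | cons j l ih => exact ih.tj

/-- smooth functions supported in the closed polydisc of radius `7/2` -/
def Test (u : (Fin n → ℂ) → ℂ) : Prop := ContDiff ℝ ∞ u ∧ ∀ z, u z ≠ 0 → ∀ k, ‖z k‖ ≤ 7 / 2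

theorem Good.test {l : List (Fin n)} {u : (Fin n → ℂ) → ℂ} (h : Good l u) : Test u :=
  ⟨h.1, fun z hz k => (h.2 z hz k).1⟩

theorem Test.add {u v : (Fin n → ℂ) → ℂ} (hu : Test u) (hv : Test v) :
    Test fun z => u z + v z := by
  refine ⟨hu.1.add hv.1, fun z hz k => ?_⟩
  by_cases h1 : u z = 0
  · apply hv.2 z _ k
    intro h2
    apply hz
    simp only [h1, h2, add_zero]
  · exact hu.2 z h1 k

theorem Test.zero : Test (fun _ : Fin n → ℂ => (0 : ℂ)) := ⟨contDiff_const, fun _ h => absurd rfl h⟩

theorem exists_prim (l : List (Fin n)) (hl : l.Nodup) {u : (Fin n → ℂ) → ℂ} (h : Good [] u) :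
    ∃ H : Fin n → (Fin n → ℂ) → ℂ, (∀ j, Test (H j)) ∧
      ∀ z, u z = TL l u z + ∑ j, dbar j (H j) z := by
  induction l with
  | nil =>
    refine ⟨fun _ _ => 0, fun _ => Test.zero, fun z => ?_⟩
    simp [TL, dbar_zero]
  | cons j l ih =>
    obtain ⟨H, hH, he⟩ := ih hl.of_cons
    have hg := good_TL l h
    refine ⟨fun k => if k = j then (fun z => H k z + hj j (TL l u) z) else H k, fun k => ?_,
      fun z => ?_⟩
    · by_cases hk : k = j
      · subst hk
        simp only [if_pos]
        exact (hH k).add hg.hj.test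
      · simp only [if_neg hk]
        exact hH k
    · have hjl : j ∉ l := (List.nodup_cons.mp hl).1
      have h1 := step j hg.1 hg.hcs (fun z hz => ((hg.2 z hz j).2 hjl).trans (by norm_num)) z
      have h2 : ∀ k, dbar k (if k = j then (fun z => H k z + hj j (TL l u) z) else H k) z =
          dbar k (H k) z + if k = j then dbar j (hj j (TL l u)) z else 0 := by
        intro k
        by_cases hk : k = j
        · subst hk
          simp only [if_pos]
          exact dbar_add k ((hH k).1.differentiable (by simp) z)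
            ((hj_contDiff k hg.1 hg.hcs).differentiable (by simp) z)
        · simp only [if_neg hk, add_zero]
      rw [he z, h1]
      simp_rw [h2]
      rw [Finset.sum_add_distrib, Finset.sum_ite_eq' Finset.univ j]
      simp only [Finset.mem_univ, if_true]
      show tj j (TL l u) z + dbar j (hj j (TL l u)) z + _ = tj j (TL l u) z + _
      ring

/-- a probability density -/
noncomputable def bet (w : ℂ) : ℂ := ((bump.normed volume w : ℝ) : ℂ)

theorem bet_int : ∫ w : ℂ, bet w = 1 := by
  unfold bet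
  rw [integral_complex_ofReal, bump.integral_normed, Complex.ofReal_one]

theorem bet_continuous : Continuous bet :=
  Complex.continuous_ofReal.comp bump.continuous_normed

theorem bet_zero {w : ℂ} (hw : 7 / 2 < ‖w‖) : bet w = 0 := by
  have h1 : w ∉ Function.support (bump.normed volume) := by
    rw [bump.support_normed_eq]
    intro h2
    rw [mem_ball_zero_iff] at h2
    have : ‖w‖ < 7 / 2 := h2
    linarith
  unfold bet
  rw [Function.notMem_support.mp h1, Complex.ofReal_zero]

theorem bet_bound : ∃ C : ℝ, 0 ≤ C ∧ ∀ w, ‖bet w‖ ≤ C := by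
  have hc : HasCompactSupport bet := by
    apply HasCompactSupport.of_support_subset_isCompact (isCompact_closedBall (0 : ℂ) (7 / 2))
    intro w hw
    rw [mem_closedBall_zero_iff]
    by_contra h
    exact hw (bet_zero (not_le.mp h))
  obtain ⟨C, hC⟩ := hc.exists_bound_of_continuous bet_continuous
  exact ⟨C, (norm_nonneg _).trans (hC 0), hC⟩

/-- the integrand of the kernel formula -/
noncomputable def Gk (l : List (Fin n)) (u : (Fin n → ℂ) → ℂ) (z y : Fin n → ℂ) : ℂ :=
  (∏ k, if k ∈ l then kap (z k) (y k) else bet (y k)) * u (fun k => if k ∈ l then y k else z k)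

theorem Gk_integrable (l : List (Fin n)) {u : (Fin n → ℂ) → ℂ} (h : Good [] u)
    (z : Fin n → ℂ) : Integrable (Gk l u z) := by
  obtain ⟨C, hC0, hC⟩ := kap_bound
  obtain ⟨D, hD0, hD⟩ := bet_bound
  obtain ⟨M, hM⟩ := h.hcs.exists_bound_of_continuous h.1.continuous
  have hM0 : 0 ≤ M := (norm_nonneg _).trans (hM 0)
  have hmeas : Measurable (Gk l u z) := by
    unfold Gk
    apply Measurable.mul
    · apply Finset.measurable_prod
      intro k _
      split_ifs with hk
      · exact (kap_measurable (z k)).comp (measurable_pi_apply k)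
      · exact bet_continuous.measurable.comp (measurable_pi_apply k)
    · apply h.1.continuous.measurable.comp
      apply measurable_pi_lambda
      intro k
      split_ifs with hk
      · exact measurable_pi_apply k
      · exact measurable_const
  have hb : ∀ y, ‖Gk l u z y‖ ≤ (max C D) ^ n * M := by
    intro y
    unfold Gk
    rw [norm_mul, norm_prod]
    have h1 : ∏ k, ‖(if k ∈ l then kap (z k) (y k) else bet (y k) : ℂ)‖ ≤ (max C D) ^ n := by
      calc _ ≤ ∏ _k : Fin n, max C D := by
            apply Finset.prod_le_prod (fun _ _ => norm_nonneg _)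
            intro k _
            split_ifs
            · exact (hC _ _).trans (le_max_left _ _)
            · exact (hD _).trans (le_max_right _ _)
        _ = _ := by simp
    have h2 : 0 ≤ (max C D) ^ n := by positivity
    exact mul_le_mul h1 (hM _) (norm_nonneg _) h2
  have h0 : ∀ y, y ∉ Metric.closedBall (0 : Fin n → ℂ) (7 / 2) → Gk l u z y = 0 := by
    intro y hy
    rw [mem_closedBall_zero_iff, pi_norm_le_iff_of_nonneg (by norm_num)] at hy
    push Not at hy
    obtain ⟨k, hk⟩ := hy
    unfold Gk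
    rw [Finset.prod_eq_zero (Finset.mem_univ k), zero_mul]
    split_ifs
    · exact kap_zero (by linarith)
    · exact bet_zero hk
  have h1 : IntegrableOn (Gk l u z) (Metric.closedBall (0 : Fin n → ℂ) (7 / 2)) :=
    Measure.integrableOn_of_bounded (measure_closedBall_lt_top.ne) hmeas.aestronglyMeasurable
      (M := (max C D) ^ n * M) (Filter.Eventually.of_forall hb)
  exact (integrableOn_iff_integrable_of_support_subset (fun y hy => by
    by_contra h2
    exact hy (h0 y h2))).mp h1

/-- integrating out one variable -/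
theorem fubini_update (j : Fin n) {G : (Fin n → ℂ) → ℂ} (hG : Integrable G) {b : ℂ → ℂ}
    (hb : ∫ w : ℂ, b w = 1) :
    ∫ w : ℂ, ∫ y : Fin n → ℂ, b (y j) * G (Function.update y j w) = ∫ y, G y := by
  cases n with
  | zero => exact j.elim0
  | succ m =>
    have e := volume_preserving_piFinSuccAbove (fun _ : Fin (m + 1) => ℂ) j
    have e' := e.symm
    have h1 : ∀ w : ℂ, ∫ y : Fin (m + 1) → ℂ, b (y j) * G (Function.update y j w) =
        ∫ y' : Fin m → ℂ, G (j.insertNth w y') := by
      intro w
      rw [← e'.integral_comp' (fun y => b (y j) * G (Function.update y j w))]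
      have h2 : ∀ p : ℂ × (Fin m → ℂ), b (((MeasurableEquiv.piFinSuccAbove
          (fun _ : Fin (m + 1) => ℂ) j).symm p) j) * G (Function.update
            ((MeasurableEquiv.piFinSuccAbove (fun _ : Fin (m + 1) => ℂ) j).symm p) j w) =
            b p.1 * G (j.insertNth w p.2) := by
        rintro ⟨a, y'⟩
        have h3 : (MeasurableEquiv.piFinSuccAbove (fun _ : Fin (m + 1) => ℂ) j).symm (a, y') =
            j.insertNth a y' := rfl
        rw [h3, Fin.insertNth_apply_same]
        congr 2
        exact Fin.update_insertNth (α := fun _ : Fin (m + 1) => ℂ) j a w y'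
      simp_rw [h2]
      rw [Measure.volume_eq_prod, integral_prod_mul b (fun y' : Fin m → ℂ => G (j.insertNth w y')),
        hb, one_mul]
    simp_rw [h1]
    rw [← e'.integral_comp' G]
    have h4 : Integrable (fun p : ℂ × (Fin m → ℂ) =>
        G ((MeasurableEquiv.piFinSuccAbove (fun _ : Fin (m + 1) => ℂ) j).symm p)) := by
      exact (e'.integrable_comp_emb (MeasurableEquiv.measurableEmbedding _)).mpr hG
    rw [Measure.volume_eq_prod] at h4 ⊢
    rw [integral_prod _ h4]
    rfl

theorem TL_eq (l : List (Fin n)) (hl : l.Nodup) {u : (Fin n → ℂ) → ℂ} (h : Good [] u) :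
    ∀ z, TL l u z = ∫ y, Gk l u z y := by
  induction l with
  | nil =>
    intro z
    unfold Gk
    simp only [List.not_mem_nil, if_false]
    rw [integral_mul_const, integral_fintype_prod_volume_eq_prod (fun _ : Fin n => bet)]
    simp [bet_int, TL]
  | cons j l ih =>
    intro z
    have hjl : j ∉ l := (List.nodup_cons.mp hl).1
    have hg := good_TL l h
    show tj j (TL l u) z = _
    rw [tj_eq j (fun z hz => (hg.2 z hz j).2 hjl), ← fubini_update j (Gk_integrable (j :: l) h z)
      bet_int]
    apply integral_congr_ae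
    refine Filter.Eventually.of_forall fun w => ?_
    simp only
    rw [ih hl.of_cons, ← integral_const_mul]
    apply integral_congr_ae
    refine Filter.Eventually.of_forall fun y => ?_
    simp only
    unfold Gk
    have h1 : (fun k => if k ∈ j :: l then Function.update y j w k else z k) =
        fun k => if k ∈ l then y k else Function.update z j w k := by
      ext k
      by_cases hk : k = j
      · subst hk
        simp [hjl]
      · simp [hk]
    rw [h1, ← mul_assoc, ← mul_assoc]
    congr 1
    rw [← Finset.mul_prod_erase Finset.univ _ (Finset.mem_univ j),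
      ← Finset.mul_prod_erase Finset.univ _ (Finset.mem_univ j)]
    simp only [hjl, if_false, List.mem_cons_self, if_true, Function.update_self]
    have h2 : ∏ k ∈ Finset.univ.erase j, (if k ∈ l then kap (Function.update z j w k) (y k)
        else bet (y k)) = ∏ k ∈ Finset.univ.erase j, (if k ∈ j :: l then
          kap (z k) (Function.update y j w k) else bet (Function.update y j w k)) := by
      apply Finset.prod_congr rfl
      intro k hk
      have hk' : k ≠ j := Finset.ne_of_mem_erase hk
      simp [hk']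
    rw [h2]
    ring

/-- the product kernel operator -/
noncomputable def KK (u : (Fin n → ℂ) → ℂ) (z : Fin n → ℂ) : ℂ :=
  ∫ y : Fin n → ℂ, (∏ k, kap (z k) (y k)) * u y

/-- MAIN LOCAL STATEMENT: a smooth function supported in the closed unit polydisc is, up to
`dbar`-derivatives of smooth functions supported in the polydisc of radius `7/2`, its image under
the product kernel operator. -/
theorem local_top {u : (Fin n → ℂ) → ℂ} (h : Good [] u) :
    Test (KK u) ∧ ∃ H : Fin n → (Fin n → ℂ) → ℂ, (∀ j, Test (H j)) ∧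
      ∀ z, u z = KK u z + ∑ j, dbar j (H j) z := by
  have h1 : TL (List.finRange n) u = KK u := by
    funext z
    rw [TL_eq _ (List.nodup_finRange n) h]
    unfold Gk KK
    simp
  obtain ⟨H, hH, he⟩ := exists_prim (List.finRange n) (List.nodup_finRange n) h
  rw [h1] at he
  refine ⟨?_, H, hH, he⟩
  rw [← h1]
  exact (good_TL _ h).test

end Pool.Agent.H71.Top
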