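import Mathlib
import Pool.Agent.H71.Top.Kernel

set_option autoImplicit false

/-!
# Derivative bounds for families of powers times a cutoff
-/

namespace Pool.Agent.H71.Top

open MeasureTheory Set Filter Topology
open scoped Real ContDiff

section fam

variable {U : Set ℂ} {p : ℕ → ℂ → ℂ} {s : ℕ → ℂ} {σ : ℕ → ℕ}

theorem fam_contDiff (hU : IsOpen U)
    (hp : ∀ a, ∀ x ∈ U, HasDerivAt (p a) (s a * p (σ a) x) x) {F : Type}
    [NormedAddCommGroup F] [NormedSpace ℝ F] [NormedSpace ℂ F] [IsScalarTower ℝ ℂ F]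
    [SMulCommClass ℝ ℂ F] {φ : ℂ → F}
    (hφ : ContDiff ℝ ∞ φ) (hs : tsupport φ ⊆ U) (a : ℕ) :
    ContDiff ℝ ∞ fun x => p a x • φ x := by
  rw [contDiff_iff_contDiffAt]
  intro x
  by_cases hx : x ∈ U
  · have h1 : ContDiffOn ℂ ∞ (p a) U :=
      DifferentiableOn.contDiffOn (fun y hy => (hp a y hy).differentiableAt.differentiableWithinAt)
        hU
    have h2 : ContDiffAt ℝ ∞ (p a) x := (h1.contDiffAt (hU.mem_nhds hx)).restrict_scalars ℝ
    exact h2.smul hφ.contDiffAt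
  · have h1 : x ∉ tsupport φ := fun h => hx (hs h)
    have h2 : (fun x => p a x • φ x) =ᶠ[𝓝 x] fun _ => 0 := by
      filter_upwards [(isClosed_tsupport φ).isOpen_compl.mem_nhds h1] with y hy
      rw [image_eq_zero_of_notMem_tsupport hy, smul_zero]
    exact contDiffAt_const.congr_of_eventuallyEq h2

/-- the rank one family of linear maps -/
noncomputable def Phi {F : Type} [NormedAddCommGroup F] [NormedSpace ℝ F] [NormedSpace ℂ F]
    [IsScalarTower ℝ ℂ F] [SMulCommClass ℝ ℂ F] (φ : ℂ → F) (x : ℂ) : ℂ →L[ℝ] F :=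
  (ContinuousLinearMap.id ℝ ℂ).smulRight (φ x)

theorem Phi_contDiff {F : Type} [NormedAddCommGroup F] [NormedSpace ℝ F] [NormedSpace ℂ F]
    [IsScalarTower ℝ ℂ F] [SMulCommClass ℝ ℂ F] {φ : ℂ → F} (hφ : ContDiff ℝ ∞ φ) :
    ContDiff ℝ ∞ (Phi φ) := by
  let L : F →L[ℝ] (ℂ →L[ℝ] F) := LinearMap.mkContinuous
    { toFun := fun f => (ContinuousLinearMap.id ℝ ℂ).smulRight f
      map_add' := by
        intro f g
        ext e
        simp
      map_smul' := by
        intro r f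
        ext e
        simp only [ContinuousLinearMap.smulRight_apply, ContinuousLinearMap.id_apply, smul_apply,
          RingHom.id_apply]
        exact smul_comm _ _ _ } 1 (by
        intro f
        refine ContinuousLinearMap.opNorm_le_bound _ (by positivity) fun e => ?_
        simp only [LinearMap.coe_mk, AddHom.coe_mk, ContinuousLinearMap.smulRight_apply,
          ContinuousLinearMap.id_apply, one_mul]
        rw [norm_smul, mul_comm])
  exact L.contDiff.comp hφ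

theorem fam_fderiv
    (hp : ∀ a, ∀ x ∈ U, HasDerivAt (p a) (s a * p (σ a) x) x) {F : Type}
    [NormedAddCommGroup F] [NormedSpace ℝ F] [NormedSpace ℂ F] [IsScalarTower ℝ ℂ F]
    [SMulCommClass ℝ ℂ F] {φ : ℂ → F}
    (hφ : ContDiff ℝ ∞ φ) (hs : tsupport φ ⊆ U) (a : ℕ) :
    fderiv ℝ (fun x => p a x • φ x) =
      fun x => p a x • fderiv ℝ φ x + s a • (p (σ a) x • Phi φ x) := by
  funext x
  by_cases hx : x ∈ tsupport φ
  · have h1 : HasFDerivAt (p a) ((ContinuousLinearMap.toSpanSingleton ℂ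
        (s a * p (σ a) x)).restrictScalars ℝ) x :=
      ((hp a x (hs hx)).hasFDerivAt).restrictScalars ℝ
    have h2 : HasFDerivAt φ (fderiv ℝ φ x) x := (hφ.differentiable (by simp) x).hasFDerivAt
    rw [(h1.fun_smul h2).fderiv]
    congr 1
    ext e
    simp only [ContinuousLinearMap.smulRight_apply, ContinuousLinearMap.coe_restrictScalars',
      ContinuousLinearMap.toSpanSingleton_apply, smul_apply, Phi, ContinuousLinearMap.id_apply,
      smul_smul, smul_eq_mul]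
    congr 1
    ring
  · have h2 : (fun x => p a x • φ x) =ᶠ[𝓝 x] fun _ => 0 := by
      filter_upwards [(isClosed_tsupport φ).isOpen_compl.mem_nhds hx] with y hy
      rw [image_eq_zero_of_notMem_tsupport hy, smul_zero]
    have h3 : φ =ᶠ[𝓝 x] fun _ => 0 := by
      filter_upwards [(isClosed_tsupport φ).isOpen_compl.mem_nhds hx] with y hy
      rw [image_eq_zero_of_notMem_tsupport hy]
    rw [h2.fderiv_eq, h3.fderiv_eq]
    unfold Phi
    rw [image_eq_zero_of_notMem_tsupport hx]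
    ext e
    simp

theorem tsupport_Phi {F : Type} [NormedAddCommGroup F] [NormedSpace ℝ F] [NormedSpace ℂ F]
    [IsScalarTower ℝ ℂ F] [SMulCommClass ℝ ℂ F] (φ : ℂ → F) : tsupport (Phi φ) ⊆ tsupport φ := by
  apply closure_mono
  intro x hx h0
  apply hx
  unfold Phi
  rw [h0]
  ext e
  simp

theorem fam_bound (hU : IsOpen U) {ρ K : ℝ} (hρ : 0 < ρ) (hK : 0 ≤ K)
    (hs : ∀ a, ‖s a‖ ≤ a) (hσ : ∀ a, (σ a : ℝ) ≤ a + 1)
    (hρσ : ∀ a, s a ≠ 0 → ρ ^ (σ a) ≤ K * ρ ^ a)
    (hp : ∀ a, ∀ x ∈ U, HasDerivAt (p a) (s a * p (σ a) x) x)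
    (hb : ∀ a, ∀ x ∈ U, ‖p a x‖ ≤ ρ ^ a) (k : ℕ) : ∀ (F : Type) [NormedAddCommGroup F]
    [NormedSpace ℝ F] [NormedSpace ℂ F] [IsScalarTower ℝ ℂ F] [SMulCommClass ℝ ℂ F] (φ : ℂ → F),
    ContDiff ℝ ∞ φ → HasCompactSupport φ → tsupport φ ⊆ U →
    ∃ C : ℝ, 0 ≤ C ∧ ∀ a x, ‖iteratedFDeriv ℝ k (fun x => p a x • φ x) x‖ ≤
      C * ((a : ℝ) + 1) ^ k * ρ ^ a := by
  induction k with
  | zero =>
    intro F _ _ _ _ _ φ hφ hc hsu
    obtain ⟨C, hC⟩ := hc.exists_bound_of_continuous hφ.continuous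
    have hC0 : 0 ≤ C := (norm_nonneg _).trans (hC 0)
    refine ⟨C, hC0, fun a x => ?_⟩
    rw [norm_iteratedFDeriv_zero, norm_smul, pow_zero, mul_one]
    by_cases hx : x ∈ tsupport φ
    · rw [mul_comm C]
      exact mul_le_mul (hb a x (hsu hx)) (hC x) (norm_nonneg _) (by positivity)
    · rw [image_eq_zero_of_notMem_tsupport hx, norm_zero, mul_zero]
      positivity
  | succ k ih =>
    intro F _ _ _ _ _ φ hφ hc hsu
    have h1 : ContDiff ℝ ∞ (fderiv ℝ φ) := hφ.fderiv_right (by simp)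
    have h1s : tsupport (fderiv ℝ φ) ⊆ U := (tsupport_fderiv_subset ℝ).trans hsu
    have h2s : tsupport (Phi φ) ⊆ U := (tsupport_Phi φ).trans hsu
    have h2c : HasCompactSupport (Phi φ) := hc.mono' ((subset_tsupport _).trans (tsupport_Phi φ))
    obtain ⟨C1, hC1, hb1⟩ := ih (ℂ →L[ℝ] F) (fderiv ℝ φ) h1 (hc.fderiv (𝕜 := ℝ)) h1s
    obtain ⟨C2, hC2, hb2⟩ := ih (ℂ →L[ℝ] F) (Phi φ) (Phi_contDiff hφ) h2c h2s
    refine ⟨C1 + C2 * 2 ^ k * K, by positivity, fun a x => ?_⟩
    have hd1 := fam_contDiff hU hp h1 h1s a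
    have hd2 := fam_contDiff hU hp (Phi_contDiff hφ) h2s (σ a)
    rw [← norm_iteratedFDeriv_fderiv, fam_fderiv hp hφ hsu]
    have e1 : iteratedFDeriv ℝ k (fun x => p a x • fderiv ℝ φ x + s a • (p (σ a) x • Phi φ x)) x =
        iteratedFDeriv ℝ k (fun x => p a x • fderiv ℝ φ x) x +
          s a • iteratedFDeriv ℝ k (fun x => p (σ a) x • Phi φ x) x := by
      have hk : ((k : ℕ∞) : WithTop ℕ∞) ≤ ∞ := by exact_mod_cast le_top
      have e3 := iteratedFDeriv_add_apply (f := fun x => p a x • fderiv ℝ φ x)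
        (g := fun x => s a • (p (σ a) x • Phi φ x)) (x := x) (hd1.contDiffAt.of_le hk)
        ((hd2.const_smul (s a)).contDiffAt.of_le hk)
      have e4 := iteratedFDeriv_const_smul_apply (a := s a)
        (f := fun x => p (σ a) x • Phi φ x) (x := x) (hd2.contDiffAt.of_le hk)
      rw [← e4]
      exact e3
    rw [e1]
    have e3 := hb1 a x
    have e4 := hb2 (σ a) x
    have ha1 : (1 : ℝ) ≤ a + 1 := by
      have : (0 : ℝ) ≤ a := Nat.cast_nonneg a
      linarith
    have e5 : C1 * ((a : ℝ) + 1) ^ k * ρ ^ a ≤ C1 * ((a : ℝ) + 1) ^ (k + 1) * ρ ^ a := by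
      have : ((a : ℝ) + 1) ^ k ≤ ((a : ℝ) + 1) ^ (k + 1) := pow_le_pow_right₀ ha1 (by omega)
      gcongr
    have e6 : ‖s a • iteratedFDeriv ℝ k (fun x => p (σ a) x • Phi φ x) x‖ ≤
        C2 * 2 ^ k * K * ((a : ℝ) + 1) ^ (k + 1) * ρ ^ a := by
      rw [norm_smul]
      by_cases hsa : s a = 0
      · rw [hsa, norm_zero, zero_mul]
        positivity
      · have e7 := hρσ a hsa
        have e8 : ((σ a : ℝ) + 1) ^ k ≤ (2 * ((a : ℝ) + 1)) ^ k := by
          have := hσ a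
          apply pow_le_pow_left₀ (by positivity)
          linarith
        have e9 : (a : ℝ) ≤ a + 1 := by linarith
        calc ‖s a‖ * ‖iteratedFDeriv ℝ k (fun x => p (σ a) x • Phi φ x) x‖
            ≤ ((a : ℝ) + 1) * (C2 * (2 * ((a : ℝ) + 1)) ^ k * (K * ρ ^ a)) := by
              apply mul_le_mul ((hs a).trans e9) _ (norm_nonneg _) (by positivity)
              refine e4.trans ?_
              gcongr
          _ = C2 * 2 ^ k * K * ((a : ℝ) + 1) ^ (k + 1) * ρ ^ a := by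
              rw [mul_pow]
              ring
    calc ‖iteratedFDeriv ℝ k (fun x => p a x • fderiv ℝ φ x) x +
          s a • iteratedFDeriv ℝ k (fun x => p (σ a) x • Phi φ x) x‖
        ≤ C1 * ((a : ℝ) + 1) ^ (k + 1) * ρ ^ a +
          C2 * 2 ^ k * K * ((a : ℝ) + 1) ^ (k + 1) * ρ ^ a :=
        (norm_add_le _ _).trans (add_le_add (e3.trans e5) e6)
      _ = (C1 + C2 * 2 ^ k * K) * ((a : ℝ) + 1) ^ (k + 1) * ρ ^ a := by ring

end fam

end Pool.Agent.H71.Top
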