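import Mathlib
import Pool.Agent.H71.Top.Fam

set_option autoImplicit false

/-!
# Multi-index series of products of one variable families
-/

namespace Pool.Agent.H71.Top

open MeasureTheory Set Filter Topology
open scoped Real ContDiff

/-- products of sums as sums over multi-indices -/
theorem summable_pi {n : ℕ} (t : Fin n → ℕ → ℂ) (ht : ∀ j, Summable fun a => ‖t j a‖) :
    (Summable fun α : Fin n → ℕ => ‖∏ j, t j (α j)‖) ∧
      ∑' α : Fin n → ℕ, ∏ j, t j (α j) = ∏ j, ∑' a, t j a := by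
  induction n with
  | zero =>
    constructor
    · exact Summable.of_finite
    · simp [tsum_fintype]
  | succ n ih =>
    obtain ⟨h1, h2⟩ := ih (fun j => t j.succ) (fun j => ht j.succ)
    have e : ∀ x : ℕ × (Fin n → ℕ), ∏ j, t j ((Fin.consEquiv (fun _ : Fin (n + 1) => ℕ)) x j) =
        t 0 x.1 * ∏ j : Fin n, t j.succ (x.2 j) := by
      intro x
      rw [Fin.prod_univ_succ]
      rfl
    constructor
    · rw [← (Fin.consEquiv (fun _ : Fin (n + 1) => ℕ)).summable_iff]
      have h3 := (ht 0).mul_norm (f := t 0) (g := fun α : Fin n → ℕ => ∏ j : Fin n, t j.succ (α j)) h1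
      refine h3.congr fun x => ?_
      simp only [Function.comp]
      rw [e]
    · rw [← (Fin.consEquiv (fun _ : Fin (n + 1) => ℕ)).tsum_eq]
      simp_rw [e]
      rw [← tsum_mul_tsum_of_summable_norm (ht 0) h1, h2, Fin.prod_univ_succ]

theorem summable_pi_real {n : ℕ} (t : ℕ → ℝ) (ht0 : ∀ a, 0 ≤ t a) (ht : Summable t) :
    Summable fun α : Fin n → ℕ => ∏ j, t (α j) := by
  have h1 := (summable_pi (n := n) (fun _ a => (t a : ℂ)) (fun _ => by
    refine ht.congr fun a => ?_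
    rw [Complex.norm_real, Real.norm_of_nonneg (ht0 a)])).1
  refine h1.congr fun α => ?_
  rw [norm_prod]
  apply Finset.prod_congr rfl
  intro j _
  rw [Complex.norm_real, Real.norm_of_nonneg (ht0 _)]

theorem summable_poly_geom (k : ℕ) {ρ : ℝ} (h0 : 0 < ρ) (h1 : ρ < 1) :
    Summable fun a : ℕ => ((a : ℝ) + 1) ^ k * ρ ^ a := by
  have h2 : Summable fun a : ℕ => ((a : ℝ)) ^ k * ρ ^ a :=
    summable_pow_mul_geometric_of_norm_lt_one k (by rw [Real.norm_of_nonneg h0.le]; exact h1)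
  have h3 := ((summable_nat_add_iff 1).mpr h2).mul_right ρ⁻¹
  refine h3.congr fun a => ?_
  push_cast
  rw [pow_succ]
  field_simp

/-- smooth one variable families with derivative bounds -/
def FamB (g : ℕ → ℂ → ℂ) (ρ : ℝ) : Prop :=
  (∀ a, ContDiff ℝ ∞ (g a)) ∧ ∀ k : ℕ, ∃ C : ℝ, 0 ≤ C ∧ ∀ a x,
    ‖iteratedFDeriv ℝ k (g a) x‖ ≤ C * ((a : ℝ) + 1) ^ k * ρ ^ a

variable {n : ℕ}

/-- product family -/
noncomputable def gm (g : ℕ → ℂ → ℂ) (α : Fin n → ℕ) (z : Fin n → ℂ) : ℂ := ∏ j, g (α j) (z j)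

theorem gm_contDiff {g : ℕ → ℂ → ℂ} {ρ : ℝ} (hg : FamB g ρ) (α : Fin n → ℕ) :
    ContDiff ℝ ∞ (gm g α) := by
  unfold gm
  exact contDiff_prod fun j _ => coord_contDiff j (hg.1 (α j))

theorem iter_coord (j : Fin n) {v : ℂ → ℂ} (hv : ContDiff ℝ ∞ v) (m : ℕ) (z : Fin n → ℂ) :
    ‖iteratedFDeriv ℝ m (fun z : Fin n → ℂ => v (z j)) z‖ ≤ ‖iteratedFDeriv ℝ m v (z j)‖ := by
  have h1 := (ContinuousLinearMap.proj (R := ℝ) (φ := fun _ : Fin n => ℂ) j).iteratedFDeriv_comp_right
    hv z (i := m) (by exact_mod_cast le_top)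
  have h2 : (fun z : Fin n → ℂ => v (z j)) =
      v ∘ (ContinuousLinearMap.proj (R := ℝ) (φ := fun _ : Fin n => ℂ) j) := rfl
  rw [h2, h1]
  refine (ContinuousMultilinearMap.norm_compContinuousLinearMap_le _ _).trans ?_
  have h3 : ‖(ContinuousLinearMap.proj (R := ℝ) (φ := fun _ : Fin n => ℂ) j)‖ ≤ 1 := by
    refine ContinuousLinearMap.opNorm_le_bound _ zero_le_one fun z => ?_
    rw [one_mul]
    exact norm_le_pi_norm z j
  calc _ ≤ ‖iteratedFDeriv ℝ m v (z j)‖ * ∏ _i : Fin m, 1 := by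
        apply mul_le_mul_of_nonneg_left _ (norm_nonneg _)
        exact Finset.prod_le_prod (fun _ _ => norm_nonneg _) (fun _ _ => h3)
    _ = _ := by simp

theorem gm_bound {g : ℕ → ℂ → ℂ} {ρ : ℝ} (hρ : 0 < ρ) (hg : FamB g ρ) (k : ℕ) :
    ∃ D : ℝ, 0 ≤ D ∧ ∀ (α : Fin n → ℕ) (z : Fin n → ℂ), ‖iteratedFDeriv ℝ k (gm g α) z‖ ≤
      D * ∏ j, (((α j : ℝ) + 1) ^ k * ρ ^ (α j)) := by
  classical
  choose C hC0 hC using hg.2
  set C' : ℝ := ∑ m ∈ Finset.range (k + 1), C m with hC'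
  have hC'0 : 0 ≤ C' := Finset.sum_nonneg fun m _ => hC0 m
  have hCC : ∀ m ≤ k, C m ≤ C' := fun m hm =>
    Finset.single_le_sum (f := C) (fun m _ => hC0 m) (Finset.mem_range.mpr (by omega))
  refine ⟨∑ p ∈ (Finset.univ : Finset (Fin n)).sym k, ((p : Multiset (Fin n)).countPerms : ℝ) *
    C' ^ n, by positivity, fun α z => ?_⟩
  have h1 := norm_iteratedFDeriv_prod_le (𝕜 := ℝ) (u := (Finset.univ : Finset (Fin n)))
    (f := fun j (z : Fin n → ℂ) => g (α j) (z j)) (N := ∞) (x := z) (n := k)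
    (fun j _ => coord_contDiff j (hg.1 (α j))) (by exact_mod_cast le_top)
  refine h1.trans ?_
  rw [Finset.sum_mul]
  apply Finset.sum_le_sum
  intro p _
  rw [mul_assoc]
  apply mul_le_mul_of_nonneg_left _ (by positivity)
  have h2 : C' ^ n * ∏ j, (((α j : ℝ) + 1) ^ k * ρ ^ (α j)) =
      ∏ j, (C' * (((α j : ℝ) + 1) ^ k * ρ ^ (α j))) := by
    have h0 : ∏ _j : Fin n, C' = C' ^ n := by simp
    rw [← h0, ← Finset.prod_mul_distrib]
  rw [h2]
  apply Finset.prod_le_prod (fun _ _ => norm_nonneg _)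
  intro j _
  have h3 : (p : Multiset (Fin n)).count j ≤ k := by
    have := Multiset.count_le_card j (p : Multiset (Fin n))
    rwa [Sym.card_coe] at this
  set m := (p : Multiset (Fin n)).count j
  have ha : (1 : ℝ) ≤ (α j : ℝ) + 1 := by
    have : (0 : ℝ) ≤ α j := Nat.cast_nonneg _
    linarith
  refine (iter_coord j (hg.1 (α j)) m z).trans ((hC m (α j) (z j)).trans ?_)
  rw [mul_assoc]
  have h4 : ((α j : ℝ) + 1) ^ m ≤ ((α j : ℝ) + 1) ^ k := pow_le_pow_right₀ ha h3
  have h5 := hCC m h3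
  gcongr

theorem series_contDiff {g : ℕ → ℂ → ℂ} {ρ : ℝ} (hρ : 0 < ρ) (hρ1 : ρ < 1) (hg : FamB g ρ)
    {c : (Fin n → ℕ) → ℂ} {B : ℝ} (hc : ∀ α, ‖c α‖ ≤ B) :
    ContDiff ℝ ∞ fun z => ∑' α, c α * gm g α z := by
  have hB0 : 0 ≤ B := (norm_nonneg _).trans (hc 0)
  choose D hD0 hD using gm_bound (n := n) hρ hg
  have h1 : ContDiff ℝ ((⊤ : ℕ∞) : WithTop ℕ∞) fun z => ∑' α, c α * gm g α z := by
    refine contDiff_tsum (v := fun k α => B * (D k * ∏ j, (((α j : ℝ) + 1) ^ k * ρ ^ (α j))))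
      (fun α => contDiff_const.mul (gm_contDiff hg α)) ?_ ?_
    · intro k _
      apply Summable.mul_left
      apply Summable.mul_left
      exact summable_pi_real (fun a => ((a : ℝ) + 1) ^ k * ρ ^ a) (fun a => by positivity)
        (summable_poly_geom k hρ hρ1)
    · intro k α z _
      have h2 : (fun z => c α * gm g α z) = c α • gm g α := rfl
      rw [h2, iteratedFDeriv_const_smul_apply ((gm_contDiff hg α).contDiffAt.of_le
        (by exact_mod_cast le_top)), norm_smul]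
      exact mul_le_mul (hc α) (hD k α z) (norm_nonneg _) hB0
  exact h1

theorem gm_norm {g : ℕ → ℂ → ℂ} {ρ : ℝ} (hρ : 0 < ρ) (hg : FamB g ρ) :
    ∃ D : ℝ, 0 ≤ D ∧ ∀ (α : Fin n → ℕ) (z : Fin n → ℂ), ‖gm g α z‖ ≤ D * ∏ j, ρ ^ (α j) := by
  obtain ⟨D, hD0, hD⟩ := gm_bound (n := n) hρ hg 0
  refine ⟨D, hD0, fun α z => ?_⟩
  have := hD α z
  simpa using this

theorem summable_rho {ρ : ℝ} (hρ : 0 < ρ) (hρ1 : ρ < 1) :
    Summable fun α : Fin n → ℕ => ∏ j, ρ ^ (α j) :=
  summable_pi_real (fun a => ρ ^ a) (fun a => by positivity) (summable_geometric_of_lt_one hρ.le hρ1)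

theorem series_summable {g : ℕ → ℂ → ℂ} {ρ : ℝ} (hρ : 0 < ρ) (hρ1 : ρ < 1) (hg : FamB g ρ)
    {c : (Fin n → ℕ) → ℂ} {B : ℝ} (hc : ∀ α, ‖c α‖ ≤ B) (z : Fin n → ℂ) :
    Summable fun α => c α * gm g α z := by
  obtain ⟨D, hD0, hD⟩ := gm_norm (n := n) hρ hg
  have hB0 : 0 ≤ B := (norm_nonneg _).trans (hc 0)
  apply Summable.of_norm_bounded (g := fun α : Fin n → ℕ => B * (D * ∏ j, ρ ^ (α j)))
  · exact ((summable_rho hρ hρ1).mul_left D).mul_left B
  · intro α
    rw [norm_mul]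
    exact mul_le_mul (hc α) (hD α z) (norm_nonneg _) hB0

theorem series_bound {g : ℕ → ℂ → ℂ} {ρ : ℝ} (hρ : 0 < ρ) (hρ1 : ρ < 1) (hg : FamB g ρ) :
    ∃ W : ℝ, 0 ≤ W ∧ ∀ (c : (Fin n → ℕ) → ℂ) (B : ℝ), (∀ α, ‖c α‖ ≤ B) → ∀ z,
      ‖∑' α, c α * gm g α z‖ ≤ W * B := by
  obtain ⟨D, hD0, hD⟩ := gm_norm (n := n) hρ hg
  have hs := summable_rho (n := n) hρ hρ1
  refine ⟨D * ∑' α : Fin n → ℕ, ∏ j, ρ ^ (α j), ?_, fun c B hc z => ?_⟩
  · apply mul_nonneg hD0
    exact tsum_nonneg fun α => Finset.prod_nonneg fun j _ => by positivity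
  · have hB0 : 0 ≤ B := (norm_nonneg _).trans (hc 0)
    have h1 : Summable fun α : Fin n → ℕ => B * (D * ∏ j, ρ ^ (α j)) := (hs.mul_left D).mul_left B
    have h2 : ∀ α, ‖c α * gm g α z‖ ≤ B * (D * ∏ j, ρ ^ (α j)) := by
      intro α
      rw [norm_mul]
      exact mul_le_mul (hc α) (hD α z) (norm_nonneg _) hB0
    refine (tsum_of_norm_bounded h1.hasSum h2).trans (le_of_eq ?_)
    rw [tsum_mul_left, tsum_mul_left]
    ring

/-! ### The two concrete families -/

/-- the function of the outer family -/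
noncomputable def phw (x : ℂ) : ℂ := -(1 / π : ℂ) * dbar1 th x * x⁻¹

theorem phw_support {x : ℂ} (h : phw x ≠ 0) : 3 ≤ ‖x‖ ∧ ‖x‖ ≤ 7 / 2 := by
  constructor
  · by_contra h1
    apply h
    unfold phw
    rw [dbar1_th_in (not_le.mp h1)]
    ring
  · by_contra h1
    apply h
    unfold phw
    rw [dbar1_th_out (not_le.mp h1)]
    ring

theorem phw_tsupport : tsupport phw ⊆ {x : ℂ | 3 ≤ ‖x‖ ∧ ‖x‖ ≤ 7 / 2} := by
  apply closure_minimal
  · intro x hx
    exact phw_support hx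
  · exact (isClosed_le continuous_const continuous_norm).inter
      (isClosed_le continuous_norm continuous_const)

theorem phw_contDiff : ContDiff ℝ ∞ phw := by
  rw [contDiff_iff_contDiffAt]
  intro x
  by_cases hx : ‖x‖ < 3
  · have h1 : phw =ᶠ[𝓝 x] fun _ => 0 := by
      filter_upwards [(isOpen_lt continuous_norm continuous_const).mem_nhds hx] with y hy
      unfold phw
      rw [dbar1_th_in hy]
      ring
    exact contDiffAt_const.congr_of_eventuallyEq h1
  · have hx0 : x ≠ 0 := by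
      rintro rfl
      rw [norm_zero] at hx
      norm_num at hx
    unfold phw
    exact (contDiffAt_const.mul (dbar1_contDiff th_contDiff).contDiffAt).mul
      (contDiffAt_id.inv hx0)

theorem phw_compact : HasCompactSupport phw := by
  apply HasCompactSupport.of_support_subset_isCompact (isCompact_closedBall (0 : ℂ) (7 / 2))
  intro x hx
  rw [mem_closedBall_zero_iff]
  exact (phw_support hx).2

/-- the outer family `w_a(x) = (2/x)^a phw(x)` -/
noncomputable def ww (a : ℕ) (x : ℂ) : ℂ := (2 * x⁻¹) ^ a • phw x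

theorem ww_fam : FamB ww (4 / 5) := by
  have hU : IsOpen {x : ℂ | 5 / 2 < ‖x‖} := isOpen_lt continuous_const continuous_norm
  have hsu : tsupport phw ⊆ {x : ℂ | 5 / 2 < ‖x‖} := by
    intro x hx
    have := (phw_tsupport hx).1
    show (5 / 2 : ℝ) < ‖x‖
    linarith
  have hp : ∀ a : ℕ, ∀ x ∈ {x : ℂ | 5 / 2 < ‖x‖}, HasDerivAt (fun x : ℂ => (2 * x⁻¹) ^ a)
      (-((a : ℂ) / 2) * (2 * x⁻¹) ^ (a + 1)) x := by
    intro a x hx
    have hx0 : x ≠ 0 := by
      rintro rfl
      have : (5 / 2 : ℝ) < ‖(0 : ℂ)‖ := hx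
      rw [norm_zero] at this
      norm_num at this
    have h1 : HasDerivAt (fun x : ℂ => 2 * x⁻¹) (2 * (-(x ^ 2)⁻¹)) x :=
      (hasDerivAt_inv hx0).const_mul 2
    have h2 := h1.fun_pow a
    refine h2.congr_deriv ?_
    rcases Nat.eq_zero_or_pos a with h0 | h0
    · subst h0
      simp
    · obtain ⟨b, rfl⟩ : ∃ b, a = b + 1 := ⟨a - 1, by omega⟩
      have h3 : b + 1 - 1 = b := rfl
      rw [h3]
      have h4 : (2 * x⁻¹ : ℂ) ^ (b + 1 + 1) = (2 * x⁻¹) ^ b * (4 * (x ^ 2)⁻¹) := by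
        rw [pow_add, pow_add]
        ring
      rw [h4]
      ring
  constructor
  · intro a
    exact fam_contDiff (p := fun a x => (2 * x⁻¹) ^ a) (s := fun a => -((a : ℂ) / 2))
      (σ := fun a => a + 1) hU hp phw_contDiff hsu a
  · intro k
    refine fam_bound (p := fun a x => (2 * x⁻¹) ^ a) (s := fun a => -((a : ℂ) / 2))
      (σ := fun a => a + 1) hU (ρ := 4 / 5) (K := 1) (by norm_num) (by norm_num) ?_ ?_ ?_ hp ?_ k ℂ
      phw phw_contDiff phw_compact hsu
    · intro a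
      rw [norm_neg, norm_div, Complex.norm_natCast, Complex.norm_ofNat]
      have : (0 : ℝ) ≤ a := Nat.cast_nonneg a
      linarith
    · intro a
      push_cast
      exact le_rfl
    · intro a _
      rw [one_mul]
      exact pow_le_pow_of_le_one (by norm_num) (by norm_num) (by omega)
    · intro a x hx
      rw [norm_pow]
      apply pow_le_pow_left₀ (norm_nonneg _)
      have hx' : (5 / 2 : ℝ) < ‖x‖ := hx
      rw [norm_mul, norm_inv, Complex.norm_ofNat]
      rw [← div_eq_mul_inv, div_le_iff₀ (by linarith)]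
      linarith

/-- the inner cutoff -/
noncomputable def bmp2 : ContDiffBump (0 : ℂ) := ⟨1, 3 / 2, by norm_num, by norm_num⟩

/-- the inner cutoff, complex valued -/
noncomputable def eta (w : ℂ) : ℂ := ((bmp2 w : ℝ) : ℂ)

theorem eta_contDiff : ContDiff ℝ ∞ eta := Complex.ofRealCLM.contDiff.comp bmp2.contDiff

theorem eta_one {w : ℂ} (hw : ‖w‖ ≤ 1) : eta w = 1 := by
  unfold eta
  rw [bmp2.one_of_mem_closedBall (by rw [mem_closedBall_zero_iff]; exact hw), Complex.ofReal_one]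

theorem eta_tsupport : tsupport eta ⊆ Metric.closedBall 0 (3 / 2) := by
  apply closure_minimal _ Metric.isClosed_closedBall
  intro x hx
  rw [mem_closedBall_zero_iff]
  by_contra h
  apply hx
  unfold eta
  rw [bmp2.zero_of_le_dist (by rw [dist_zero_right]; exact le_of_lt (not_le.mp h)),
    Complex.ofReal_zero]

/-- the inner family -/
noncomputable def ee (a : ℕ) (x : ℂ) : ℂ := (x / 2) ^ a • eta x

theorem ee_fam : FamB ee (9 / 10) := by
  have hU : IsOpen {x : ℂ | ‖x‖ < 9 / 5} := isOpen_lt continuous_norm continuous_const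
  have hsu : tsupport eta ⊆ {x : ℂ | ‖x‖ < 9 / 5} := by
    intro x hx
    have := eta_tsupport hx
    rw [mem_closedBall_zero_iff] at this
    show ‖x‖ < (9 / 5 : ℝ)
    linarith
  have hp : ∀ a : ℕ, ∀ x ∈ {x : ℂ | ‖x‖ < 9 / 5}, HasDerivAt (fun x : ℂ => (x / 2) ^ a)
      (((a : ℂ) / 2) * (x / 2) ^ (a - 1)) x := by
    intro a x hx
    have h1 : HasDerivAt (fun x : ℂ => x / 2) (1 / 2) x := (hasDerivAt_id x).div_const 2
    have h2 := h1.fun_pow a
    refine h2.congr_deriv ?_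
    ring
  constructor
  · intro a
    exact fam_contDiff (p := fun a x => (x / 2) ^ a) (s := fun a => ((a : ℂ) / 2))
      (σ := fun a => a - 1) hU hp eta_contDiff hsu a
  · intro k
    refine fam_bound (p := fun a x => (x / 2) ^ a) (s := fun a => ((a : ℂ) / 2))
      (σ := fun a => a - 1) hU (ρ := 9 / 10) (K := 10 / 9) (by norm_num) (by norm_num) ?_ ?_ ?_ hp ?_
      k ℂ eta eta_contDiff ?_ hsu
    · intro a
      rw [norm_div, Complex.norm_natCast, Complex.norm_ofNat]
      have : (0 : ℝ) ≤ a := Nat.cast_nonneg a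
      linarith
    · intro a
      have : ((a - 1 : ℕ) : ℝ) ≤ a := by exact_mod_cast Nat.sub_le a 1
      linarith
    · intro a ha
      have ha0 : a ≠ 0 := by
        rintro rfl
        simp at ha
      obtain ⟨b, rfl⟩ : ∃ b, a = b + 1 := ⟨a - 1, by omega⟩
      have h3 : b + 1 - 1 = b := rfl
      rw [h3, pow_succ]
      apply le_of_eq
      ring
    · intro a x hx
      rw [norm_pow]
      apply pow_le_pow_left₀ (norm_nonneg _)
      have hx' : ‖x‖ < (9 / 5 : ℝ) := hx
      rw [norm_div, Complex.norm_ofNat]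
      linarith
    · exact HasCompactSupport.of_support_subset_isCompact (isCompact_closedBall (0 : ℂ) (3 / 2))
        ((subset_tsupport _).trans eta_tsupport)

/-- geometric expansion of the kernel -/
theorem kap_hasSum (x : ℂ) {w : ℂ} (hw : ‖w‖ ≤ 1) :
    (Summable fun a : ℕ => ‖ww a x * (w / 2) ^ a‖) ∧ ∑' a : ℕ, ww a x * (w / 2) ^ a = kap x w := by
  by_cases hx : ‖x‖ < 3
  · have h0 : phw x = 0 := by
      by_contra h
      linarith [(phw_support h).1]
    have h1 : ∀ a, ww a x = 0 := fun a => by unfold ww; rw [h0, smul_zero]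
    constructor
    · simp [h1, summable_zero]
    · simp only [h1, zero_mul, tsum_zero]
      unfold kap
      rw [dbar1_th_in hx]
      split_ifs <;> ring
  · push Not at hx
    have hx0 : x ≠ 0 := by
      rintro rfl
      rw [norm_zero] at hx
      norm_num at hx
    have hq : ‖w / x‖ < 1 := by
      rw [norm_div, div_lt_one (by linarith)]
      linarith
    have h1 : ∀ a : ℕ, ww a x * (w / 2) ^ a = phw x * (w / x) ^ a := by
      intro a
      unfold ww
      rw [smul_eq_mul]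
      have h2 : (w / x) ^ a = (2 * x⁻¹) ^ a * (w / 2) ^ a := by
        rw [← mul_pow]
        congr 1
        field_simp
      rw [h2]
      ring
    simp_rw [h1]
    constructor
    · simp_rw [norm_mul, norm_pow]
      exact (summable_geometric_of_lt_one (norm_nonneg _) hq).mul_left _
    · rw [tsum_mul_left, tsum_geometric_of_norm_lt_one hq]
      unfold kap phw
      rw [if_pos (by linarith)]
      have hxw : x - w ≠ 0 := by
        intro h
        have : x = w := sub_eq_zero.mp h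
        rw [this] at hx
        linarith
      have h3 : 1 - w / x ≠ 0 := by
        intro h
        apply hxw
        have h5 : x - w = x * (1 - w / x) := by field_simp
        rw [h5, h, mul_zero]
      field_simp

theorem prod_kap_hasSum (z : Fin n → ℂ) {y : Fin n → ℂ} (hy : ∀ k, ‖y k‖ ≤ 1) :
    ∏ k, kap (z k) (y k) = ∑' α : Fin n → ℕ, gm ww α z * ∏ k, (y k / 2) ^ (α k) := by
  have h1 := (summable_pi (fun k a => ww a (z k) * (y k / 2) ^ a)
    (fun k => (kap_hasSum (z k) (hy k)).1)).2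
  have h2 : ∀ α : Fin n → ℕ, ∏ k, ww (α k) (z k) * (y k / 2) ^ (α k) =
      gm ww α z * ∏ k, (y k / 2) ^ (α k) := fun α => Finset.prod_mul_distrib
  simp_rw [h2] at h1
  rw [h1]
  apply Finset.prod_congr rfl
  intro k _
  exact ((kap_hasSum (z k) (hy k)).2).symm

end Pool.Agent.H71.Top
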