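import Mathlib
import Pool.Agent.H71.Top.Series

set_option autoImplicit false

/-!
# Factorization of the product kernel operator through moments
-/

namespace Pool.Agent.H71.Top

open MeasureTheory Set Filter Topology
open scoped Real ContDiff

variable {n : ℕ}

/-- normalized moments -/
noncomputable def mom (α : Fin n → ℕ) (u : (Fin n → ℂ) → ℂ) : ℂ :=
  ∫ y : Fin n → ℂ, (∏ k, (y k / 2) ^ (α k)) * u y

/-- synthesis operator -/
noncomputable def Uc (c : (Fin n → ℕ) → ℂ) (z : Fin n → ℂ) : ℂ := ∑' α, c α * gm ww α z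

theorem Uc_test {c : (Fin n → ℕ) → ℂ} {B : ℝ} (hc : ∀ α, ‖c α‖ ≤ B) : Test (Uc c) := by
  refine ⟨series_contDiff (by norm_num) (by norm_num) ww_fam hc, fun z hz k => ?_⟩
  by_contra h
  apply hz
  unfold Uc
  have h1 : ∀ α : Fin n → ℕ, c α * gm ww α z = 0 := by
    intro α
    unfold gm
    rw [Finset.prod_eq_zero (Finset.mem_univ k), mul_zero]
    unfold ww
    have h2 : phw (z k) = 0 := by
      by_contra h3
      exact h (phw_support h3).2
    rw [h2, smul_zero]
  simp only [h1, tsum_zero]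

theorem Uc_bound : ∃ W : ℝ, 0 ≤ W ∧ ∀ (c : (Fin n → ℕ) → ℂ) (B : ℝ), (∀ α, ‖c α‖ ≤ B) → ∀ z,
    ‖Uc c z‖ ≤ W * B := series_bound (by norm_num) (by norm_num) ww_fam

theorem Uc_add {c d : (Fin n → ℕ) → ℂ} {B D : ℝ} (hc : ∀ α, ‖c α‖ ≤ B) (hd : ∀ α, ‖d α‖ ≤ D) :
    Uc (fun α => c α + d α) = fun z => Uc c z + Uc d z := by
  funext z
  unfold Uc
  rw [← (series_summable (by norm_num) (by norm_num) ww_fam hc z).tsum_add
    (series_summable (by norm_num) (by norm_num) ww_fam hd z)]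
  apply tsum_congr
  intro α
  ring

theorem Uc_smul (r : ℂ) (c : (Fin n → ℕ) → ℂ) : Uc (fun α => r * c α) = fun z => r * Uc c z := by
  funext z
  unfold Uc
  rw [← tsum_mul_left]
  apply tsum_congr
  intro α
  ring

/-- volume of the unit polydisc -/
noncomputable def vol (n : ℕ) : ℝ := (volume (Metric.closedBall (0 : Fin n → ℂ) 1)).toReal

theorem good_ball {u : (Fin n → ℂ) → ℂ} (h : Good [] u) {y : Fin n → ℂ} (hy : u y ≠ 0) :
    (∀ k, ‖y k‖ ≤ 1) ∧ y ∈ Metric.closedBall (0 : Fin n → ℂ) 1 := by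
  have h1 : ∀ k, ‖y k‖ ≤ 1 := fun k => (h.2 y hy k).2 (by simp)
  exact ⟨h1, by rw [mem_closedBall_zero_iff, pi_norm_le_iff_of_nonneg zero_le_one]; exact h1⟩

theorem mom_pt {u : (Fin n → ℂ) → ℂ} (h : Good [] u) (α : Fin n → ℕ) (y : Fin n → ℂ) :
    ‖(∏ k, (y k / 2) ^ (α k)) * u y‖ ≤ (∏ k, (1 / 2 : ℝ) ^ (α k)) * ‖u y‖ := by
  by_cases hy : u y = 0
  · rw [hy]
    simp
  · rw [norm_mul, norm_prod]
    apply mul_le_mul_of_nonneg_right _ (norm_nonneg _)
    apply Finset.prod_le_prod (fun _ _ => norm_nonneg _)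
    intro k _
    rw [norm_pow]
    apply pow_le_pow_left₀ (norm_nonneg _)
    rw [norm_div, Complex.norm_ofNat]
    have := (good_ball h hy).1 k
    linarith

theorem good_integrable {u : (Fin n → ℂ) → ℂ} (h : Good [] u) : Integrable u :=
  h.1.continuous.integrable_of_hasCompactSupport h.hcs

theorem mom_integrable {u : (Fin n → ℂ) → ℂ} (h : Good [] u) (α : Fin n → ℕ) :
    Integrable fun y : Fin n → ℂ => (∏ k, (y k / 2) ^ (α k)) * u y := by
  have h1 := (good_integrable h).norm.const_mul (∏ k, (1 / 2 : ℝ) ^ (α k))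
  refine h1.mono' ?_ (Filter.Eventually.of_forall fun y => mom_pt h α y)
  apply Continuous.aestronglyMeasurable
  exact (continuous_finsetProd _ fun k _ => ((continuous_apply k).div_const 2).pow _).mul
    h.1.continuous

theorem good_norm_int {u : (Fin n → ℂ) → ℂ} (h : Good [] u) {A : ℝ} (hA : ∀ y, ‖u y‖ ≤ A) :
    ∫ y, ‖u y‖ ≤ A * vol n := by
  have hA0 : 0 ≤ A := (norm_nonneg _).trans (hA 0)
  have h1 : ∫ y, ‖u y‖ = ∫ y in Metric.closedBall (0 : Fin n → ℂ) 1, ‖u y‖ := by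
    rw [setIntegral_eq_integral_of_forall_compl_eq_zero]
    intro y hy
    have h2 : u y = 0 := by
      by_contra h3
      exact hy (good_ball h h3).2
    rw [h2, norm_zero]
  rw [h1]
  have h2 : ∫ y in Metric.closedBall (0 : Fin n → ℂ) 1, ‖u y‖ ≤
      ∫ _y in Metric.closedBall (0 : Fin n → ℂ) 1, A := by
    apply setIntegral_mono (good_integrable h).norm.integrableOn
    · exact integrableOn_const (measure_closedBall_lt_top.ne)
    · exact hA
  refine h2.trans (le_of_eq ?_)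
  rw [setIntegral_const, smul_eq_mul, mul_comm]
  rfl

theorem mom_bound {u : (Fin n → ℂ) → ℂ} (h : Good [] u) {A : ℝ} (hA : ∀ y, ‖u y‖ ≤ A)
    (α : Fin n → ℕ) : ‖mom α u‖ ≤ (∏ k, (1 / 2 : ℝ) ^ (α k)) * (A * vol n) := by
  unfold mom
  refine (norm_integral_le_integral_norm _).trans ?_
  have h1 : ∫ y, ‖(∏ k, (y k / 2) ^ (α k)) * u y‖ ≤
      ∫ y, (∏ k, (1 / 2 : ℝ) ^ (α k)) * ‖u y‖ :=
    integral_mono (mom_integrable h α).norm ((good_integrable h).norm.const_mul _)
      (fun y => mom_pt h α y)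
  refine h1.trans ?_
  rw [integral_const_mul]
  exact mul_le_mul_of_nonneg_left (good_norm_int h hA)
    (Finset.prod_nonneg fun k _ => by positivity)

theorem exists_sup {u : (Fin n → ℂ) → ℂ} (h : Good [] u) : ∃ A : ℝ, ∀ y, ‖u y‖ ≤ A :=
  h.hcs.exists_bound_of_continuous h.1.continuous

theorem prod_half_le (α : Fin n → ℕ) : ∏ k, (1 / 2 : ℝ) ^ (α k) ≤ 1 :=
  Finset.prod_le_one (fun _ _ => by positivity) fun _ _ => pow_le_one₀ (by norm_num) (by norm_num)

theorem vol_nonneg : 0 ≤ vol n := ENNReal.toReal_nonneg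

theorem mom_bound' {u : (Fin n → ℂ) → ℂ} (h : Good [] u) {A : ℝ} (hA : ∀ y, ‖u y‖ ≤ A)
    (α : Fin n → ℕ) : ‖mom α u‖ ≤ A * vol n := by
  refine (mom_bound h hA α).trans ?_
  have hA0 : 0 ≤ A := (norm_nonneg _).trans (hA 0)
  exact mul_le_of_le_one_left (mul_nonneg hA0 vol_nonneg) (prod_half_le α)

/-- a general exchange lemma for families of products -/
theorem exchange {u : (Fin n → ℂ) → ℂ} (h : Good [] u) {d : (Fin n → ℕ) → ℂ} {B : ℝ}
    (hd : ∀ α, ‖d α‖ ≤ B) :
    (Summable fun α : Fin n → ℕ => d α * mom α u) ∧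
    ∑' α : Fin n → ℕ, d α * mom α u =
      ∫ y, (∑' α : Fin n → ℕ, d α * ∏ k, (y k / 2) ^ (α k)) * u y := by
  obtain ⟨A, hA⟩ := exists_sup h
  have hA0 : 0 ≤ A := (norm_nonneg _).trans (hA 0)
  have hB0 : 0 ≤ B := (norm_nonneg _).trans (hd 0)
  have hF : ∀ α : Fin n → ℕ, Integrable fun y : Fin n → ℂ =>
      d α * ((∏ k, (y k / 2) ^ (α k)) * u y) := fun α => (mom_integrable h α).const_mul _
  have hS : Summable fun α : Fin n → ℕ => ∫ y, ‖d α * ((∏ k, (y k / 2) ^ (α k)) * u y)‖ := by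
    apply Summable.of_nonneg_of_le (fun α => integral_nonneg fun y => norm_nonneg _)
      (f := fun α : Fin n → ℕ => B * ((∏ k, (1 / 2 : ℝ) ^ (α k)) * (A * vol n)))
    · intro α
      simp_rw [norm_mul (d α)]
      rw [integral_const_mul]
      apply mul_le_mul (hd α) _ (integral_nonneg fun y => norm_nonneg _) hB0
      have h1 : ∫ y, ‖(∏ k, (y k / 2) ^ (α k)) * u y‖ ≤
          ∫ y, (∏ k, (1 / 2 : ℝ) ^ (α k)) * ‖u y‖ :=
        integral_mono (mom_integrable h α).norm ((good_integrable h).norm.const_mul _)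
          (fun y => mom_pt h α y)
      refine h1.trans ?_
      rw [integral_const_mul]
      exact mul_le_mul_of_nonneg_left (good_norm_int h hA)
        (Finset.prod_nonneg fun k _ => by positivity)
    · exact ((summable_rho (n := n) (by norm_num : (0 : ℝ) < 1 / 2) (by norm_num)).mul_right
        (A * vol n)).mul_left B
  have h2 := hasSum_integral_of_summable_integral_norm hF hS
  have h3 : ∀ α : Fin n → ℕ, ∫ y, d α * ((∏ k, (y k / 2) ^ (α k)) * u y) = d α * mom α u := by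
    intro α
    rw [integral_const_mul]
    rfl
  simp_rw [h3] at h2
  refine ⟨h2.summable, ?_⟩
  rw [h2.tsum_eq]
  apply integral_congr_ae
  refine Filter.Eventually.of_forall fun y => ?_
  simp only
  rw [← tsum_mul_right]
  apply tsum_congr
  intro α
  ring

/-- the product kernel operator is synthesis after moments -/
theorem KK_eq {u : (Fin n → ℂ) → ℂ} (h : Good [] u) : KK u = Uc fun α => mom α u := by
  funext z
  obtain ⟨D, hD0, hD⟩ := gm_norm (n := n) (by norm_num) ww_fam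
  have hd : ∀ α : Fin n → ℕ, ‖gm ww α z‖ ≤ D := by
    intro α
    refine (hD α z).trans ?_
    apply mul_le_of_le_one_right hD0
    exact Finset.prod_le_one (fun _ _ => by positivity)
      fun _ _ => pow_le_one₀ (by norm_num) (by norm_num)
  unfold Uc KK
  have h1 := (exchange h hd).2
  have h2 : ∑' α : Fin n → ℕ, mom α u * gm ww α z = ∑' α : Fin n → ℕ, gm ww α z * mom α u :=
    tsum_congr fun α => mul_comm _ _
  rw [h2, h1]
  apply integral_congr_ae
  refine Filter.Eventually.of_forall fun y => ?_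
  simp only
  by_cases hy : u y = 0
  · rw [hy, mul_zero, mul_zero]
  · rw [prod_kap_hasSum z (good_ball h hy).1]

/-- the dual functions -/
noncomputable def Ps (b : (Fin n → ℕ) → ℂ) (z : Fin n → ℂ) : ℂ := ∑' α, b α * gm ee α z

theorem Ps_contDiff {b : (Fin n → ℕ) → ℂ} {B : ℝ} (hb : ∀ α, ‖b α‖ ≤ B) :
    ContDiff ℝ ∞ (Ps b) := series_contDiff (by norm_num) (by norm_num) ee_fam hb

theorem Ps_eq {b : (Fin n → ℕ) → ℂ} {B : ℝ} (hb : ∀ α, ‖b α‖ ≤ B) {u : (Fin n → ℂ) → ℂ}
    (h : Good [] u) : (Summable fun α : Fin n → ℕ => b α * mom α u) ∧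
      ∑' α : Fin n → ℕ, b α * mom α u = ∫ y, Ps b y * u y := by
  have h1 := exchange h hb
  refine ⟨h1.1, h1.2.trans ?_⟩
  apply integral_congr_ae
  refine Filter.Eventually.of_forall fun y => ?_
  simp only
  by_cases hy : u y = 0
  · rw [hy, mul_zero, mul_zero]
  · congr 1
    unfold Ps
    apply tsum_congr
    intro α
    congr 1
    unfold gm
    apply Finset.prod_congr rfl
    intro k _
    unfold ee
    rw [eta_one ((good_ball h hy).1 k), smul_eq_mul, mul_one]

end Pool.Agent.H71.Top
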