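import Mathlib
import Pool.Agent.H71.Top.Moments

set_option autoImplicit false

/-!
# Abstract top degree duality: linear functionals vanishing on exact forms are integrals against
smooth functions
-/

namespace Pool.Agent.H71.Top

open MeasureTheory Set Filter Topology
open scoped Real ContDiff BoundedContinuousFunction

variable {n m : ℕ}

/-- the space of smooth functions supported in the closed polydisc of radius `7/2` -/
def TestSub (n : ℕ) : Submodule ℂ ((Fin n → ℂ) → ℂ) where
  carrier := {u | Test u}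
  add_mem' := fun hu hv => Test.add hu hv
  zero_mem' := Test.zero
  smul_mem' := by
    intro c u hu
    refine ⟨contDiff_const.mul hu.1, fun z hz k => hu.2 z (fun h0 => hz ?_) k⟩
    show c * u z = 0
    rw [h0, mul_zero]

theorem dbar_test (j : Fin n) {u : (Fin n → ℂ) → ℂ} (hu : Test u) : Test (dbar j u) := by
  constructor
  · unfold dbar
    have h1 : ContDiff ℝ ∞ (fderiv ℝ u) := hu.1.fderiv_right (by simp)
    exact contDiff_const.mul ((h1.clm_apply contDiff_const).add
      (contDiff_const.mul (h1.clm_apply contDiff_const)))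
  · intro z hz k
    by_contra h
    apply hz
    have h1 : u =ᶠ[𝓝 z] fun _ => 0 := by
      have h2 : {y : Fin n → ℂ | 7 / 2 < ‖y k‖} ∈ 𝓝 z :=
        (isOpen_lt continuous_const (continuous_apply k).norm).mem_nhds (not_le.mp h)
      filter_upwards [h2] with y hy
      by_contra h3
      have := hu.2 y h3 k
      have hy' : (7 / 2 : ℝ) < ‖y k‖ := hy
      linarith
    unfold dbar
    rw [h1.fderiv_eq]
    simp

/-- An abstract linear functional fixed by a nearly finite rank operator is continuous. -/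
theorem continuous_of_fixed {E : Type*} [NormedAddCommGroup E] [NormedSpace ℂ E] [CompleteSpace E]
    (T : E →L[ℂ] E) {κ : Type*} (s : Finset κ) (coef : κ → E →L[ℂ] ℂ) (v : κ → E)
    (hG : ‖T - ∑ p ∈ s, (coef p).smulRight (v p)‖ < 1) (μ : E →ₗ[ℂ] ℂ) (hμ : ∀ x, μ (T x) = μ x) :
    ∃ μ' : E →L[ℂ] ℂ, ∀ x, μ x = μ' x := by
  set G : E →L[ℂ] E := T - ∑ p ∈ s, (coef p).smulRight (v p) with hGdef
  let e := Units.oneSub G hG
  let R : E →L[ℂ] E := ((e⁻¹ : (E →L[ℂ] E)ˣ) : E →L[ℂ] E)
  have hR : ∀ x, R x - G (R x) = x := by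
    intro x
    have h1 : ((e : (E →L[ℂ] E)ˣ) : E →L[ℂ] E) * R = 1 := e.mul_inv
    have h2 := congrArg (fun f : E →L[ℂ] E => f x) h1
    exact h2
  refine ⟨∑ p ∈ s, (μ (v p)) • (coef p).comp R, fun x => ?_⟩
  have h3 : T (R x) = G (R x) + ∑ p ∈ s, (coef p (R x)) • v p := by
    rw [hGdef]
    simp
  have h4 := hμ (R x)
  rw [h3, map_add, map_sum] at h4
  have h5 : μ x = μ (R x) - μ (G (R x)) := by
    rw [← map_sub, hR]
  rw [h5, ← h4]
  simp only [map_smul, smul_eq_mul]
  rw [add_sub_cancel_left, sum_apply]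
  apply Finset.sum_congr rfl
  intro p _
  simp only [smul_apply, ContinuousLinearMap.comp_apply, smul_eq_mul]
  ring

/-- the index set -/
abbrev Ix (n m : ℕ) : Type := Fin m × (Fin n → ℕ)

/-- point masses -/
noncomputable def del (p : Ix n m) : Ix n m →ᵇ ℂ :=
  BoundedContinuousFunction.ofNormedAddCommGroupDiscrete (fun q => if q = p then 1 else 0) 1 (by
    intro q
    split_ifs <;> simp)

theorem del_norm (p : Ix n m) : ‖del p‖ ≤ 1 :=
  (BoundedContinuousFunction.norm_le zero_le_one).mpr (by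
    intro q
    show ‖(if q = p then (1 : ℂ) else 0)‖ ≤ 1
    split_ifs <;> simp)

theorem hasSum_del (x : Ix n m →ᵇ ℂ) (hx : Summable fun p => ‖x p‖) :
    HasSum (fun p => x p • del p) x := by
  have h1 : Summable fun p => x p • del p := by
    apply Summable.of_norm_bounded hx
    intro p
    rw [norm_smul]
    exact mul_le_of_le_one_right (norm_nonneg _) (del_norm p)
  have h2 := h1.hasSum
  have h3 : ∑' p, x p • del p = x := by
    generalize hy : ∑' p, x p • del p = y at h2
    refine BoundedContinuousFunction.ext fun q => ?_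
    let φ : (Ix n m →ᵇ ℂ) →L[ℂ] ℂ := BoundedContinuousFunction.evalCLM ℂ q
    have h4 : HasSum (fun p => φ (x p • del p)) (φ y) := h2.mapL φ
    have h6 : (fun p => φ (x p • del p)) = fun p => if p = q then x q else 0 := by
      funext p
      rw [map_smul, smul_eq_mul]
      have h7 : φ (del p) = if q = p then (1 : ℂ) else 0 := rfl
      rw [h7]
      by_cases h : p = q
      · subst h
        simp
      · rw [if_neg (fun h' => h h'.symm), if_neg h, mul_zero]
    rw [h6] at h4
    exact h4.unique (hasSum_ite_eq q (x q))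
  rwa [h3] at h2

variable {A : Type*} [AddCommGroup A] [Module ℂ A]

/-- MAIN ABSTRACT THEOREM. `A` is the space of forms, `B` the subspace of exact forms (modulo
`F^1`), `c i f` the `i`-th localized coefficient of `f`, `e i` the extension by zero of a test
function in the `i`-th chart. -/
theorem abstract_top (B : Submodule ℂ A) (c : Fin m → A →ₗ[ℂ] ((Fin n → ℂ) → ℂ))
    (e : Fin m → TestSub n →ₗ[ℂ] A)
    (hc : ∀ i f, Good [] (c i f))
    (he : ∀ i j h (hh : Test h), e i ⟨dbar j h, dbar_test j hh⟩ ∈ B)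
    (hdec : ∀ f, ∀ (hT : ∀ i, Test (c i f)), f - ∑ i, e i ⟨c i f, hT i⟩ ∈ B)
    (hb : ∀ i j, ∃ C : ℝ, 0 ≤ C ∧ ∀ (u : TestSub n) (M : ℝ), (∀ z, ‖u.1 z‖ ≤ M) →
      ∀ z, ‖c j (e i u) z‖ ≤ C * M)
    (lam : A →ₗ[ℂ] ℂ) (hlam : ∀ b ∈ B, lam b = 0) :
    ∃ ψ : Fin m → (Fin n → ℂ) → ℂ, (∀ i, ContDiff ℝ ∞ (ψ i)) ∧
      ∀ f, lam f = ∑ i, ∫ y, ψ i y * c i f y := by
  classical
  -- synthesis
  have hbd : ∀ (x : Ix n m →ᵇ ℂ) (i : Fin m) (α : Fin n → ℕ), ‖x (i, α)‖ ≤ ‖x‖ := fun x i α =>
    x.norm_coe_le_norm _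
  let Ui : (Ix n m →ᵇ ℂ) → Fin m → TestSub n := fun x i =>
    ⟨Uc fun α => x (i, α), Uc_test (hbd x i)⟩
  let S : (Ix n m →ᵇ ℂ) →ₗ[ℂ] A :=
    { toFun := fun x => ∑ i, e i (Ui x i)
      map_add' := by
        intro x y
        rw [← Finset.sum_add_distrib]
        apply Finset.sum_congr rfl
        intro i _
        rw [← map_add]
        congr 1
        apply Subtype.ext
        show (Uc fun α => x (i, α) + y (i, α)) = _
        rw [Uc_add (hbd x i) (hbd y i)]
        rfl
      map_smul' := by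
        intro r x
        rw [RingHom.id_apply, Finset.smul_sum]
        apply Finset.sum_congr rfl
        intro i _
        rw [← map_smul]
        congr 1
        apply Subtype.ext
        show (Uc fun α => r * x (i, α)) = _
        rw [Uc_smul]
        rfl }
  -- analysis
  have hmb : ∀ f : A, ∃ C : ℝ, 0 ≤ C ∧ ∀ i α, ‖mom α (c i f)‖ ≤ (∏ k, (1 / 2 : ℝ) ^ (α k)) * C := by
    intro f
    choose M hM using fun i => exists_sup (hc i f)
    have hM0 : ∀ i, 0 ≤ M i := fun i => (norm_nonneg _).trans (hM i 0)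
    refine ⟨(∑ i, M i) * vol n, mul_nonneg (Finset.sum_nonneg fun i _ => hM0 i) vol_nonneg,
      fun i α => ?_⟩
    refine (mom_bound (hc i f) (hM i) α).trans ?_
    apply mul_le_mul_of_nonneg_left _ (Finset.prod_nonneg fun k _ => by positivity)
    apply mul_le_mul_of_nonneg_right _ vol_nonneg
    exact Finset.single_le_sum (f := M) (fun i _ => hM0 i) (Finset.mem_univ i)
  have hmb' : ∀ f : A, ∃ C : ℝ, ∀ p : Ix n m, ‖mom p.2 (c p.1 f)‖ ≤ C := by
    intro f
    obtain ⟨C, hC0, hC⟩ := hmb f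
    exact ⟨C, fun p => (hC p.1 p.2).trans (mul_le_of_le_one_left hC0 (prod_half_le _))⟩
  have hmom_add : ∀ (i : Fin m) (α : Fin n → ℕ) (f g : A),
      mom α (c i (f + g)) = mom α (c i f) + mom α (c i g) := by
    intro i α f g
    unfold mom
    rw [← integral_add (mom_integrable (hc i f) α) (mom_integrable (hc i g) α), map_add]
    apply integral_congr_ae
    refine Filter.Eventually.of_forall fun y => ?_
    simp only [Pi.add_apply]
    ring
  have hmom_smul : ∀ (i : Fin m) (α : Fin n → ℕ) (r : ℂ) (f : A),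
      mom α (c i (r • f)) = r * mom α (c i f) := by
    intro i α r f
    unfold mom
    rw [← integral_const_mul, map_smul]
    apply integral_congr_ae
    refine Filter.Eventually.of_forall fun y => ?_
    simp only [Pi.smul_apply, smul_eq_mul]
    ring
  let Mo : A →ₗ[ℂ] (Ix n m →ᵇ ℂ) :=
    { toFun := fun f => BoundedContinuousFunction.ofNormedAddCommGroupDiscrete
        (fun p : Ix n m => mom p.2 (c p.1 f)) (hmb' f).choose (hmb' f).choose_spec
      map_add' := by
        intro f g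
        ext p
        exact hmom_add p.1 p.2 f g
      map_smul' := by
        intro r f
        ext p
        exact hmom_smul p.1 p.2 r f }
  have hMo : ∀ f p, Mo f p = mom p.2 (c p.1 f) := fun _ _ => rfl
  -- lam = lam ∘ S ∘ Mo
  have hKK : ∀ i f (hT : Test (c i f)), lam (e i ⟨c i f, hT⟩) = lam (e i (Ui (Mo f) i)) := by
    intro i f hT
    obtain ⟨hK, H, hH, heq⟩ := local_top (hc i f)
    have h1 : (⟨c i f, hT⟩ : TestSub n) = ⟨KK (c i f), hK⟩ +
        ∑ j, (⟨dbar j (H j), dbar_test j (hH j)⟩ : TestSub n) := by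
      apply Subtype.ext
      funext z
      have h2 : ((∑ j, (⟨dbar j (H j), dbar_test j (hH j)⟩ : TestSub n) : TestSub n) :
          (Fin n → ℂ) → ℂ) = ∑ j, dbar j (H j) := by
        rw [Submodule.coe_sum]
      show c i f z = KK (c i f) z + _
      rw [h2, Finset.sum_apply]
      exact heq z
    have h3 : (⟨KK (c i f), hK⟩ : TestSub n) = Ui (Mo f) i := by
      apply Subtype.ext
      exact KK_eq (hc i f)
    rw [h1, map_add, map_add, map_sum, map_sum, h3]
    rw [Finset.sum_eq_zero, add_zero]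
    intro j _
    exact hlam _ (he i j (H j) (hH j))
  have hfix : ∀ f, lam f = lam (S (Mo f)) := by
    intro f
    have hT : ∀ i, Test (c i f) := fun i => (hc i f).test
    have h1 := hlam _ (hdec f hT)
    rw [map_sub, sub_eq_zero, map_sum] at h1
    rw [h1]
    show _ = lam (∑ i, e i (Ui (Mo f) i))
    rw [map_sum]
    exact Finset.sum_congr rfl fun i _ => hKK i f (hT i)
  -- the operator T
  obtain ⟨W, hW0, hW⟩ := Uc_bound (n := n)
  choose C hC0 hC using hb
  set D : ℝ := ∑ j, ∑ i, C i j * W with hD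
  have hD0 : 0 ≤ D := Finset.sum_nonneg fun j _ => Finset.sum_nonneg fun i _ =>
    mul_nonneg (hC0 i j) hW0
  have hTb : ∀ (x : Ix n m →ᵇ ℂ) (p : Ix n m),
      ‖Mo (S x) p‖ ≤ (∏ k, (1 / 2 : ℝ) ^ (p.2 k)) * (D * ‖x‖ * vol n) := by
    rintro x ⟨j, β⟩
    rw [hMo]
    apply mom_bound (hc j (S x))
    intro z
    have h1 : c j (S x) z = ∑ i, c j (e i (Ui x i)) z := by
      show c j (∑ i, e i (Ui x i)) z = _
      rw [map_sum, Finset.sum_apply]
    rw [h1]
    refine (norm_sum_le _ _).trans ?_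
    have h2 : ∀ i, ‖c j (e i (Ui x i)) z‖ ≤ C i j * (W * ‖x‖) := fun i =>
      hC i j (Ui x i) (W * ‖x‖) (fun z => hW _ _ (hbd x i) z) z
    refine (Finset.sum_le_sum fun i _ => h2 i).trans ?_
    have h3 : ∑ i, C i j * (W * ‖x‖) = (∑ i, C i j * W) * ‖x‖ := by
      rw [Finset.sum_mul]
      exact Finset.sum_congr rfl fun i _ => by ring
    rw [h3]
    apply mul_le_mul_of_nonneg_right _ (norm_nonneg _)
    exact Finset.single_le_sum (f := fun j => ∑ i, C i j * W)
      (fun j _ => Finset.sum_nonneg fun i _ => mul_nonneg (hC0 i j) hW0) (Finset.mem_univ j)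
  have hTb' : ∀ x : Ix n m →ᵇ ℂ, ‖Mo (S x)‖ ≤ (D * vol n) * ‖x‖ := by
    intro x
    refine (BoundedContinuousFunction.norm_le (mul_nonneg (mul_nonneg hD0 vol_nonneg)
      (norm_nonneg _))).mpr fun p => (hTb x p).trans ?_
    have h1 : 0 ≤ D * ‖x‖ * vol n := mul_nonneg (mul_nonneg hD0 (norm_nonneg _)) vol_nonneg
    refine (mul_le_of_le_one_left h1 (prod_half_le _)).trans (le_of_eq (by ring))
  let T : (Ix n m →ᵇ ℂ) →L[ℂ] (Ix n m →ᵇ ℂ) := (Mo ∘ₗ S).mkContinuous (D * vol n) hTb'
  have hT : ∀ x, T x = Mo (S x) := fun _ => rfl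
  -- tail
  have hsum : Summable fun p : Ix n m => ∏ k, (1 / 2 : ℝ) ^ (p.2 k) := by
    have h1 : Summable fun _i : Fin m => (1 : ℝ) := Summable.of_finite
    have h2 := h1.mul_of_nonneg (summable_rho (n := n) (by norm_num : (0 : ℝ) < 1 / 2)
      (by norm_num)) (fun _ => zero_le_one) (fun α => Finset.prod_nonneg fun k _ => by positivity)
    refine h2.congr fun p => ?_
    rw [one_mul]
  obtain ⟨s, hs⟩ : ∃ s : Finset (Ix n m), ∀ p ∉ s,
      (∏ k, (1 / 2 : ℝ) ^ (p.2 k)) * (D * vol n) ≤ 1 / 2 := by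
    have h1 : Summable fun p : Ix n m => (∏ k, (1 / 2 : ℝ) ^ (p.2 k)) * (D * vol n) :=
      hsum.mul_right _
    have h2 := h1.tendsto_cofinite_zero
    have h3 := h2.eventually (ge_mem_nhds (show (0 : ℝ) < 1 / 2 by norm_num))
    rw [Filter.eventually_cofinite] at h3
    refine ⟨h3.toFinset, fun p hp => ?_⟩
    by_contra h4
    exact hp (h3.mem_toFinset.mpr h4)
  have hG : ‖T - ∑ p ∈ s, ((BoundedContinuousFunction.evalCLM ℂ p).comp T).smulRight (del p)‖ <
      1 := by
    refine lt_of_le_of_lt (ContinuousLinearMap.opNorm_le_bound _ (M := 1 / 2) (by norm_num)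
      fun x => ?_) (by norm_num)
    refine (BoundedContinuousFunction.norm_le (by positivity)).mpr fun q => ?_
    have h1 : (T - ∑ p ∈ s, ((BoundedContinuousFunction.evalCLM ℂ p).comp T).smulRight (del p)) x q
        = T x q - ∑ p ∈ s, T x p * (if q = p then 1 else 0) := by
      rw [sub_apply, sum_apply,
        BoundedContinuousFunction.sub_apply]
      congr 1
      rw [BoundedContinuousFunction.sum_apply]
      rfl
    rw [h1]
    by_cases hq : q ∈ s
    · have h2 : ∑ p ∈ s, T x p * (if q = p then (1 : ℂ) else 0) = T x q := by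
        simp [hq]
      rw [h2, sub_self, norm_zero]
      positivity
    · have h2 : ∑ p ∈ s, T x p * (if q = p then (1 : ℂ) else 0) = 0 := by
        simp [hq]
      rw [h2, sub_zero, hT]
      refine (hTb x q).trans ?_
      have h3 := hs q hq
      calc (∏ k, (1 / 2 : ℝ) ^ (q.2 k)) * (D * ‖x‖ * vol n)
          = ((∏ k, (1 / 2 : ℝ) ^ (q.2 k)) * (D * vol n)) * ‖x‖ := by ring
        _ ≤ 1 / 2 * ‖x‖ := mul_le_mul_of_nonneg_right h3 (norm_nonneg _)
  obtain ⟨μ', hμ'⟩ := continuous_of_fixed T s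
    (fun p => (BoundedContinuousFunction.evalCLM ℂ p).comp T) del hG (lam ∘ₗ S) (by
      intro x
      rw [hT]
      show lam (S (Mo (S x))) = lam (S x)
      exact (hfix (S x)).symm)
  -- the dual coefficients
  have hbb : ∀ p, ‖μ' (del p)‖ ≤ ‖μ'‖ := by
    intro p
    refine (μ'.le_opNorm _).trans ?_
    exact mul_le_of_le_one_right (norm_nonneg _) (del_norm p)
  refine ⟨fun i => Ps fun α => μ' (del (i, α)), fun i => Ps_contDiff (fun α => hbb (i, α)),
    fun f => ?_⟩
  rw [hfix f]
  have h1 : lam (S (Mo f)) = μ' (Mo f) := hμ' (Mo f)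
  have hMs : Summable fun p : Ix n m => ‖Mo f p‖ := by
    obtain ⟨K, hK0, hK⟩ := hmb f
    exact Summable.of_nonneg_of_le (fun p => norm_nonneg _) (fun p => hK p.1 p.2)
      (hsum.mul_right K)
  have h2 := μ'.hasSum (hasSum_del (Mo f) hMs)
  have h3 : ∀ p : Ix n m, μ' (Mo f p • del p) = μ' (del p) * mom p.2 (c p.1 f) := by
    intro p
    rw [map_smul, smul_eq_mul, hMo, mul_comm]
  rw [h1, ← h2.tsum_eq]
  simp_rw [h3]
  have hs2 : Summable fun p : Ix n m => μ' (del p) * mom p.2 (c p.1 f) := by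
    refine h2.summable.congr fun p => ?_
    exact (h3 p)
  rw [hs2.tsum_prod, tsum_fintype]
  apply Finset.sum_congr rfl
  intro i _
  exact (Ps_eq (fun α => hbb (i, α)) (hc i f)).2

end Pool.Agent.H71.Top
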